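import Mathlib

/-!
Gates acting on cells, frames, and the basic commutator words.
-/

set_option autoImplicit false

namespace Pool.Agent.J6H71.Dist

/-- modes of the relay gates -/
inductive Rm | fs | fb | j0 | j1
  deriving DecidableEq

instance : Fintype Rm := ⟨{.fs, .fb, .j0, .j1}, fun x => by cases x <;> simp⟩

/-- shapes of the gates acting on odd cells -/
inductive Osh | C | L | H | rel (m : Rm) (Y : Bool)
  deriving DecidableEq, Fintype

/-- conditions on an even cell -/
inductive Cnd | fo (a : Osh) (Y : Bool) | jj (j Y : Bool)
  deriving DecidableEq, Fintype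

/-- gates controlled by one bit -/
inductive Kb | ref (b : Bool) | cv (c : Cnd) | own (c : Cnd)
  deriving DecidableEq, Fintype

/-- shapes of the gates acting on even cells -/
inductive Esh | addR | addB | rot | bt (k : Kb)
  deriving DecidableEq, Fintype

/-- kinds of gates -/
inductive Knd | O (a : Osh) (Y : Bool) | E (b : Esh) (Y : Bool)
  deriving DecidableEq, Fintype

/-- the array index group -/
abbrev G (N : ℕ) := ZMod N × Bool → ZMod 2

/-- the message group -/
abbrev M (N : ℕ) := (Kb → ZMod 2) × G N × G N

/-- content of a cell -/
@[ext] structure V (N : ℕ) where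
  d : ZMod N
  Z : M N
  B : G N
  R : G N → M N

/-- parameters: the schedule and the digit classes -/
structure Par (N : ℕ) where
  sg : ZMod N → Option Knd
  J : Bool → ZMod N → Bool

section Basic

variable {N : ℕ}

theorem g2 (x : G N) : x + x = 0 := by
  funext i
  exact CharTwo.add_self_eq_zero _

theorem m2 (x : M N) : x + x = 0 := by
  refine Prod.ext ?_ (Prod.ext ?_ ?_)
  · funext i; exact CharTwo.add_self_eq_zero _
  · exact g2 _
  · exact g2 _

theorem m_add_cancel (x a : M N) : x + a + a = x := by rw [add_assoc, m2, add_zero]

open Classical in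
noncomputable def io (d : ZMod N) (t : Bool) : G N := Pi.single (d, t) 1

theorem io_inj {d d' : ZMod N} {t t' : Bool} (h : io d t = io d' t') : d = d' ∧ t = t' := by
  classical
  unfold io at h
  by_contra hne
  have hne' : (d', t') ≠ (d, t) := by
    intro he
    apply hne
    have := congrArg Prod.fst he
    have := congrArg Prod.snd he
    simp_all
  have h1 := congrFun h (d, t)
  rw [Pi.single_eq_same, Pi.single_eq_of_ne hne'.symm] at h1
  exact one_ne_zero h1

theorem io_ne (d : ZMod N) (t : Bool) : io d t ≠ 0 := by
  classical
  intro h
  unfold io at h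
  have h1 := congrFun h (d, t)
  rw [Pi.single_eq_same] at h1
  exact one_ne_zero h1

/-- the constant message -/
def uu : M N := (fun _ => 1, 0, 0)

def refl (b : Bool) (d : ZMod N) : ZMod N := if b then 1 - d else - d

theorem refl_refl (b : Bool) (d : ZMod N) : refl b (refl b d) = d := by
  unfold refl
  cases b <;> simp

variable (pr : Par N)

open Classical in
/-- what a relay passes on -/
noncomputable def cnd (m : Rm) (Y : Bool) (d : ZMod N) (b : Esh) : Prop :=
  match m with
  | .fs => pr.sg d = some (.E b Y)
  | .fb => pr.sg d = some (.E .addR Y)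
  | .j0 => pr.J false d = true
  | .j1 => pr.J true d = true

def cc (c : Cnd) (d : ZMod N) (t : Bool) : Prop :=
  match c with
  | .fo a Y => pr.sg d = some (.O a Y) ∧ t = Y
  | .jj j Y => pr.J j d = true ∧ t = Y

open Classical in
/-- the messages of odd gates -/
noncomputable def Fm (a : Osh) (w : Option (Bool × V N)) : M N :=
  match a, w with
  | .C, _ => uu
  | _, none => 0
  | .L, some (t, v) => (0, io v.d (!t), 0)
  | .H, some (_, v) => (0, 0, v.B)
  | .rel m Y, some (t, v) => if t = Y then
      (fun k => if cnd pr m Y v.d (.bt k) then v.Z.1 k else 0,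
       if cnd pr m Y v.d .addB then v.Z.2.1 else 0,
       if cnd pr m Y v.d .rot then v.Z.2.2 else 0) else 0

theorem Fm_none {a : Osh} (h : a ≠ .C) : Fm pr a none = 0 := by
  cases a <;> first | rfl | exact absurd rfl h

open Classical in
/-- the involution of a one-bit gate -/
noncomputable def th (k : Kb) (t : Bool) (v : V N) : V N :=
  match k with
  | .ref b => { v with d := refl b v.d }
  | .cv c => if cc pr c v.d t then { v with Z := v.Z + uu } else v
  | .own c => if cc pr c v.d t then { v with Z := v.Z + v.R (io v.d t) } else v

theorem th_th (k : Kb) (t : Bool) (v : V N) : th pr k t (th pr k t v) = v := by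
  cases k with
  | ref b => simp only [th, refl_refl]
  | cv c =>
    by_cases h : cc pr c v.d t
    · have e1 : th pr (.cv c) t v = { v with Z := v.Z + uu } := if_pos h
      have e2 : th pr (.cv c) t { v with Z := v.Z + uu } = { v with Z := v.Z + uu + uu } := if_pos h
      rw [e1, e2, m_add_cancel]
    · have e1 : th pr (.cv c) t v = v := if_neg h
      rw [e1, e1]
  | own c =>
    by_cases h : cc pr c v.d t
    · have e1 : th pr (.own c) t v = { v with Z := v.Z + v.R (io v.d t) } := if_pos h
      have e2 : th pr (.own c) t { v with Z := v.Z + v.R (io v.d t) } =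
        { v with Z := v.Z + v.R (io v.d t) + v.R (io v.d t) } := if_pos h
      rw [e1, e2, m_add_cancel]
    · have e1 : th pr (.own c) t v = v := if_neg h
      rw [e1, e1]

open Classical in
/-- the action of even gates on the content, with control `z` -/
noncomputable def actE (b : Esh) (t : Bool) (z : M N) (v : V N) : V N :=
  match b with
  | .addR => { v with R := fun x => if x = 0 then v.R x + z else v.R x }
  | .addB => { v with B := v.B + z.2.1 }
  | .rot => { v with R := fun x => v.R (x + z.2.2) }
  | .bt k => if z.1 k = 1 then th pr k t v else v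

theorem zmod2_cases (x : ZMod 2) : x = 0 ∨ x = 1 := by
  revert x; decide

theorem actE_zero (b : Esh) (t : Bool) (v : V N) : actE pr b t 0 v = v := by
  cases b with
  | addR => simp [actE]
  | addB => simp [actE]
  | rot => simp [actE]
  | bt k => simp [actE]

theorem actE_add (b : Esh) (t : Bool) (z z' : M N) (v : V N) :
    actE pr b t (z + z') (actE pr b t z v) = actE pr b t z' v := by
  cases b with
  | addR =>
    simp only [actE]
    congr 1
    funext x
    by_cases h : x = 0
    · simp only [h, if_true]
      rw [add_assoc, ← add_assoc z z z', m2, zero_add]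
    · simp only [h, if_false]
  | addB =>
    simp only [actE]
    congr 1
    show v.B + z.2.1 + (z.2.1 + z'.2.1) = v.B + z'.2.1
    rw [add_assoc, ← add_assoc z.2.1, g2, zero_add]
  | rot =>
    simp only [actE]
    congr 1
    funext x
    congr 1
    show x + (z.2.2 + z'.2.2) + z.2.2 = x + z'.2.2
    rw [add_assoc, add_assoc, add_comm z'.2.2 z.2.2, ← add_assoc z.2.2, g2, zero_add]
  | bt k =>
    simp only [actE]
    have h : (z + z').1 k = z.1 k + z'.1 k := rfl
    rw [h]
    rcases zmod2_cases (z.1 k) with h1 | h1 <;> rcases zmod2_cases (z'.1 k) with h2 | h2 <;>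
      rw [h1, h2] <;> simp [th_th, CharTwo.add_self_eq_zero]

theorem actE_self (b : Esh) (t : Bool) (z : M N) (v : V N) :
    actE pr b t z (actE pr b t z v) = v := by
  have h := actE_add pr b t z 0 v
  rw [add_zero, actE_zero] at h
  exact h

end Basic

end Pool.Agent.J6H71.Dist
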