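import Pool.Agent.J6H71.Dist.A

/-!
Frames, the action of words on frames, and the commutator words.
-/

set_option autoImplicit false

namespace Pool.Agent.J6H71.Dist

/-- a frame: odd cells, drivers of even cells, links, types -/
structure Fr (I : Type) where
  oc : I → Bool
  dr : I → Option I
  lk : I → Option I
  t : I → Bool
  h1 : ∀ e o, dr e = some o → oc o = true ∧ oc e = false
  h2 : ∀ o e, lk o = some e → oc o = true ∧ ∃ o', dr e = some o' ∧ t o' = !(t o)

variable {N : ℕ} {I : Type} (pr : Par N)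

/-- the view of an odd cell -/
def vw (f : Fr I) (v : I → V N) (i : I) : Option (Bool × V N) := (f.lk i).map fun e => (f.t e, v e)

/-- the even gate `b` with control `m` -/
noncomputable def eAp (f : Fr I) (b : Esh) (Y : Bool) (m : I → M N) (v : I → V N) : I → V N :=
  fun i => match f.dr i with
    | some o => if f.t o = Y then actE pr b (f.t i) (m o) (v i) else v i
    | none => v i

/-- addition of `m` to the registers of the odd cells of type `Y` -/
def oAd (f : Fr I) (Y : Bool) (m : I → M N) (v : I → V N) : I → V N :=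
  fun i => if f.oc i = true ∧ f.t i = Y then { v i with Z := (v i).Z + m i } else v i

/-- the action of a gate -/
noncomputable def act (f : Fr I) (κ : Knd) (v : I → V N) : I → V N :=
  match κ with
  | .O a Y => oAd f Y (fun i => Fm pr a (vw f v i)) v
  | .E b Y => eAp pr f b Y (fun o => (v o).Z) v

/-- the action of a word -/
noncomputable def run (f : Fr I) (w : List Knd) (v : I → V N) : I → V N :=
  w.foldl (fun v κ => act pr f κ v) v

theorem run_nil (f : Fr I) (v : I → V N) : run pr f [] v = v := rfl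

theorem run_cons (f : Fr I) (κ : Knd) (w : List Knd) (v : I → V N) :
    run pr f (κ :: w) v = run pr f w (act pr f κ v) := rfl

theorem run_append (f : Fr I) (w w' : List Knd) (v : I → V N) :
    run pr f (w ++ w') v = run pr f w' (run pr f w v) := by
  unfold run
  rw [List.foldl_append]

theorem dr_none {f : Fr I} {i : I} (h : f.oc i = true) : f.dr i = none := by
  cases h2 : f.dr i with
  | none => rfl
  | some o =>
    have := (f.h1 i o h2).2
    rw [h] at this
    exact absurd this (by simp)

theorem eAp_oc {f : Fr I} {b : Esh} {Y : Bool} {m : I → M N} {v : I → V N} {i : I}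
    (h : f.oc i = true) : eAp pr f b Y m v i = v i := by
  unfold eAp
  rw [dr_none h]

theorem eAp_none {f : Fr I} {b : Esh} {Y : Bool} {m : I → M N} {v : I → V N} {i : I}
    (h : f.dr i = none) : eAp pr f b Y m v i = v i := by
  unfold eAp
  rw [h]

theorem eAp_some {f : Fr I} {b : Esh} {Y : Bool} {m : I → M N} {v : I → V N} {i o : I}
    (h : f.dr i = some o) (hY : f.t o = Y) :
    eAp pr f b Y m v i = actE pr b (f.t i) (m o) (v i) := by
  unfold eAp
  rw [h]
  exact if_pos hY

theorem eAp_ne {f : Fr I} {b : Esh} {Y : Bool} {m : I → M N} {v : I → V N} {i o : I}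
    (h : f.dr i = some o) (hY : f.t o ≠ Y) :
    eAp pr f b Y m v i = v i := by
  unfold eAp
  rw [h]
  exact if_neg hY

theorem oAd_pos {f : Fr I} {Y : Bool} {m : I → M N} {v : I → V N} {i : I}
    (h : f.oc i = true) (hY : f.t i = Y) :
    oAd f Y m v i = { v i with Z := (v i).Z + m i } := by
  unfold oAd
  exact if_pos ⟨h, hY⟩

theorem oAd_ne {f : Fr I} {Y : Bool} {m : I → M N} {v : I → V N} {i : I}
    (hY : f.t i ≠ Y) : oAd f Y m v i = v i := by
  unfold oAd
  exact if_neg (fun h => hY h.2)

theorem oAd_oc {f : Fr I} {Y : Bool} {m : I → M N} {v : I → V N} {i : I}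
    (h : f.oc i = false) : oAd f Y m v i = v i := by
  unfold oAd
  exact if_neg (fun h' => by rw [h] at h'; exact absurd h'.1 (by simp))

theorem vw_congr {f : Fr I} {v v' : I → V N} {i : I} (h : ∀ e, f.lk i = some e → v e = v' e) :
    vw f v i = vw f v' i := by
  unfold vw
  cases h2 : f.lk i with
  | none => rfl
  | some e => simp only [Option.map_some, h e h2]

/-- The view of an odd cell of type `Y` is not changed by the even gates of type `Y`. -/
theorem vw_eAp {f : Fr I} {b : Esh} {Y : Bool} {m : I → M N} {v : I → V N} {i : I}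
    (hY : f.t i = Y) : vw f (eAp pr f b Y m v) i = vw f v i := by
  apply vw_congr
  intro e he
  obtain ⟨-, o', h1, h2⟩ := f.h2 i e he
  apply eAp_ne pr h1
  rw [h2, hY]
  cases Y <;> simp

/-- The view of an odd cell is not changed by odd gates. -/
theorem vw_oAd {f : Fr I} {Y : Bool} {m : I → M N} {v : I → V N} {i : I} :
    vw f (oAd f Y m v) i = vw f v i := by
  apply vw_congr
  intro e he
  obtain ⟨-, o', h1, h2⟩ := f.h2 i e he
  exact oAd_oc (f.h1 e o' h1).2

theorem act_O (f : Fr I) (a : Osh) (Y : Bool) (v : I → V N) : act pr f (.O a Y) v =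
    oAd f Y (fun i => Fm pr a (vw f v i)) v := rfl

theorem act_E (f : Fr I) (b : Esh) (Y : Bool) (v : I → V N) : act pr f (.E b Y) v =
    eAp pr f b Y (fun o => (v o).Z) v := rfl

theorem act_O_pos {f : Fr I} {a : Osh} {Y : Bool} {v : I → V N} {i : I}
    (h : f.oc i = true) (hY : f.t i = Y) :
    act pr f (.O a Y) v i = { v i with Z := (v i).Z + Fm pr a (vw f v i) } := by
  rw [act_O, oAd_pos h hY]

theorem act_O_ne {f : Fr I} {a : Osh} {Y : Bool} {v : I → V N} {i : I}
    (hY : f.t i ≠ Y) : act pr f (.O a Y) v i = v i := by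
  rw [act_O, oAd_ne hY]

theorem act_O_oc {f : Fr I} {a : Osh} {Y : Bool} {v : I → V N} {i : I}
    (h : f.oc i = false) : act pr f (.O a Y) v i = v i := by
  rw [act_O, oAd_oc h]

theorem act_E_oc {f : Fr I} {b : Esh} {Y : Bool} {v : I → V N} {i : I}
    (h : f.oc i = true) : act pr f (.E b Y) v i = v i := by
  rw [act_E, eAp_oc pr h]

theorem act_E_none {f : Fr I} {b : Esh} {Y : Bool} {v : I → V N} {i : I}
    (h : f.dr i = none) : act pr f (.E b Y) v i = v i := by
  rw [act_E, eAp_none pr h]

theorem act_E_some {f : Fr I} {b : Esh} {Y : Bool} {v : I → V N} {i o : I}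
    (h : f.dr i = some o) (hY : f.t o = Y) :
    act pr f (.E b Y) v i = actE pr b (f.t i) (v o).Z (v i) := by
  rw [act_E, eAp_some pr h hY]

theorem act_E_ne {f : Fr I} {b : Esh} {Y : Bool} {v : I → V N} {i o : I}
    (h : f.dr i = some o) (hY : f.t o ≠ Y) :
    act pr f (.E b Y) v i = v i := by
  rw [act_E, eAp_ne pr h hY]

/-- the three kinds of cells -/
theorem cell_cases (f : Fr I) (i : I) : (f.oc i = true ∧ f.dr i = none) ∨
    (f.oc i = false ∧ ∃ o, f.dr i = some o ∧ f.oc o = true) ∨ (f.oc i = false ∧ f.dr i = none) := by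
  cases h : f.oc i with
  | true => exact Or.inl ⟨rfl, dr_none h⟩
  | false =>
    cases h2 : f.dr i with
    | none => exact Or.inr (Or.inr ⟨rfl, rfl⟩)
    | some o => exact Or.inr (Or.inl ⟨rfl, o, rfl, (f.h1 i o h2).1⟩)

/-- the basic commutator word -/
def cmw (b : Esh) (a : Osh) (Y : Bool) : List Knd := [.E b Y, .O a Y, .E b Y, .O a Y]

theorem run_cmw (f : Fr I) (b : Esh) (a : Osh) (Y : Bool) (v : I → V N) :
    run pr f (cmw b a Y) v = eAp pr f b Y (fun o => Fm pr a (vw f v o)) v := by
  have e0 : run pr f (cmw b a Y) v =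
      act pr f (.O a Y) (act pr f (.E b Y) (act pr f (.O a Y) (act pr f (.E b Y) v))) := rfl
  rw [e0]
  set v1 := act pr f (.E b Y) v with hv1
  set v2 := act pr f (.O a Y) v1 with hv2
  set v3 := act pr f (.E b Y) v2 with hv3
  have w1 : ∀ i, f.t i = Y → vw f v1 i = vw f v i := fun i hi => vw_eAp pr hi
  have w2 : ∀ i, vw f v2 i = vw f v1 i := fun i => vw_oAd
  have w3 : ∀ i, f.t i = Y → vw f v3 i = vw f v2 i := fun i hi => vw_eAp pr hi
  funext i
  rcases cell_cases f i with ⟨h1, h2⟩ | ⟨h1, o, h2, h3⟩ | ⟨h1, h2⟩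
  · -- odd cell
    rw [eAp_oc pr h1]
    have a3 : v3 i = v2 i := act_E_oc pr h1
    have a1 : v1 i = v i := act_E_oc pr h1
    by_cases hY : f.t i = Y
    · rw [act_O_pos pr h1 hY]
      have a2 : v2 i = { v1 i with Z := (v1 i).Z + Fm pr a (vw f v1 i) } := act_O_pos pr h1 hY
      rw [w3 i hY, w2 i, a3, a2, a1]
      simp only [m_add_cancel]
    · rw [act_O_ne pr hY]
      have a2 : v2 i = v1 i := act_O_ne pr hY
      rw [a3, a2, a1]
  · rw [act_O_oc pr h1]
    have a2 : v2 i = v1 i := act_O_oc pr h1
    by_cases hY : f.t o = Y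
    · rw [eAp_some pr h2 hY]
      have a3 : v3 i = actE pr b (f.t i) (v2 o).Z (v2 i) := act_E_some pr h2 hY
      have a1 : v1 i = actE pr b (f.t i) (v o).Z (v i) := act_E_some pr h2 hY
      have b1 : v1 o = v o := act_E_oc pr h3
      have b2 : v2 o = { v1 o with Z := (v1 o).Z + Fm pr a (vw f v1 o) } := act_O_pos pr h3 hY
      rw [a3, a2, b2, b1, a1, w1 o hY]
      exact actE_add pr b (f.t i) _ _ _
    · rw [eAp_ne pr h2 hY]
      have a3 : v3 i = v2 i := act_E_ne pr h2 hY
      have a1 : v1 i = v i := act_E_ne pr h2 hY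
      rw [a3, a2, a1]
  · rw [act_O_oc pr h1]
    have a3 : v3 i = v2 i := act_E_none pr h2
    have a2 : v2 i = v1 i := act_O_oc pr h1
    have a1 : v1 i = v i := act_E_none pr h2
    rw [a3, a2, a1, eAp_none pr h2]

/-- the involution property of a gate -/
theorem act_act (f : Fr I) (κ : Knd) (v : I → V N) : act pr f κ (act pr f κ v) = v := by
  cases κ with
  | O a Y =>
    funext i
    have h : ∀ i, vw f (act pr f (.O a Y) v) i = vw f v i := fun i => vw_oAd
    by_cases h1 : f.oc i = true
    · by_cases hY : f.t i = Y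
      · rw [act_O_pos pr h1 hY, h i, act_O_pos pr h1 hY]
        simp only [m_add_cancel]
      · rw [act_O_ne pr hY, act_O_ne pr hY]
    · rw [Bool.not_eq_true] at h1
      rw [act_O_oc pr h1, act_O_oc pr h1]
  | E b Y =>
    funext i
    rcases cell_cases f i with ⟨h1, h2⟩ | ⟨h1, o, h2, h3⟩ | ⟨h1, h2⟩
    · rw [act_E_oc pr h1, act_E_oc pr h1]
    · by_cases hY : f.t o = Y
      · rw [act_E_some pr h2 hY, act_E_oc pr h3, act_E_some pr h2 hY]
        exact actE_self pr b _ _ _
      · rw [act_E_ne pr h2 hY, act_E_ne pr h2 hY]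
    · rw [act_E_none pr h2, act_E_none pr h2]

theorem run_reverse (f : Fr I) (w : List Knd) (v : I → V N) :
    run pr f w.reverse (run pr f w v) = v := by
  induction w generalizing v with
  | nil => rfl
  | cons κ w ih =>
    rw [List.reverse_cons, run_append, run_cons pr f κ w, ih, run_cons, run_nil, act_act]

end Pool.Agent.J6H71.Dist
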