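import Pool.Agent.J6H71.Dist.B

/-!
The words that emulate the gates acting on odd cells one level up.
-/

set_option autoImplicit false

namespace Pool.Agent.J6H71.Dist

variable {N : ℕ} {I : Type} (pr : Par N)

open Classical in
/-- the address of the cell after the next one, seen from an even cell -/
noncomputable def rho1 (f : Fr I) (v : I → V N) (e : I) : G N :=
  match f.dr e with
  | some o => (Fm pr .L (vw f v o)).2.1
  | none => 0

noncomputable def rho (f : Fr I) (v : I → V N) (o : I) : G N :=
  match f.lk o with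
  | some e => rho1 pr f v e
  | none => 0

theorem FmL_congr {f : Fr I} {v v' : I → V N} (h : ∀ i, (v i).d = (v' i).d) (o : I) :
    Fm pr .L (vw f v o) = Fm pr .L (vw f v' o) := by
  unfold vw
  cases h2 : f.lk o with
  | none => rfl
  | some e => simp only [Option.map_some, Fm, h e]

theorem rho_congr {f : Fr I} {v v' : I → V N} (h : ∀ i, (v i).d = (v' i).d) :
    rho pr f v = rho pr f v' := by
  funext o
  unfold rho
  cases h2 : f.lk o with
  | none => rfl
  | some e =>
    simp only
    unfold rho1
    cases h3 : f.dr e with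
    | none => rfl
    | some o' =>
      simp only
      rw [FmL_congr pr h]

theorem oAd_d {f : Fr I} {Y : Bool} {m : I → M N} {v : I → V N} (i : I) :
    (oAd f Y m v i).d = (v i).d := by
  unfold oAd
  split_ifs <;> rfl

theorem eAp_d {f : Fr I} {b : Esh} {Y : Bool} {m : I → M N} {v : I → V N}
    (hb : ∀ t z x, (actE pr b t z x).d = x.d) (i : I) :
    (eAp pr f b Y m v i).d = (v i).d := by
  unfold eAp
  cases h : f.dr i with
  | none => rfl
  | some o =>
    simp only
    split_ifs
    · exact hb _ _ _
    · rfl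

theorem addB_d (t : Bool) (z : M N) (x : V N) : (actE pr .addB t z x).d = x.d := rfl
theorem addR_d (t : Bool) (z : M N) (x : V N) : (actE pr .addR t z x).d = x.d := rfl
theorem rot_d (t : Bool) (z : M N) (x : V N) : (actE pr .rot t z x).d = x.d := rfl
theorem own_d (c : Cnd) (t : Bool) (z : M N) (x : V N) :
    (actE pr (.bt (.own c)) t z x).d = x.d := by
  simp only [actE]
  split_ifs
  · simp only [th]
    split_ifs <;> rfl
  · rfl

def swd : List Knd := cmw .addB .L false
def twd : List Knd := .O .H true :: (swd ++ (.O .H true :: swd))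
def uwd : List Knd := .E .rot true :: (twd ++ (.E .rot true :: twd))
def wwd (a : Osh) : List Knd := uwd ++ (cmw .addR a true ++ uwd)
def own (c : Cnd) : List Knd := cmw (.bt (.own c)) .C true
def owd (c : Cnd) (a : Osh) : List Knd := own c ++ (wwd a ++ (own c ++ wwd a))

theorem run_swd (f : Fr I) (v : I → V N) :
    run pr f swd v = eAp pr f .addB false (fun o => Fm pr .L (vw f v o)) v := run_cmw pr f _ _ _ v

theorem run_twd (f : Fr I) (v : I → V N) :
    run pr f twd v = oAd f true (fun o => (0, 0, rho pr f v o)) v := by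
  have e0 : run pr f twd v = run pr f swd (act pr f (.O .H true)
      (run pr f swd (act pr f (.O .H true) v))) := by
    unfold twd
    rw [run_cons, run_append, run_cons]
  rw [e0, run_swd, run_swd]
  set v1 := act pr f (.O .H true) v with hv1
  set v2 := eAp pr f .addB false (fun o => Fm pr .L (vw f v1 o)) v1 with hv2
  set v3 := act pr f (.O .H true) v2 with hv3
  have d1 : ∀ i, (v1 i).d = (v i).d := fun i => oAd_d i
  have d2 : ∀ i, (v2 i).d = (v1 i).d := fun i => eAp_d pr (addB_d pr) i
  have d3 : ∀ i, (v3 i).d = (v2 i).d := fun i => oAd_d i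
  have L1 : ∀ o, Fm pr .L (vw f v1 o) = Fm pr .L (vw f v o) := FmL_congr pr d1
  have L3 : ∀ o, Fm pr .L (vw f v3 o) = Fm pr .L (vw f v o) :=
    FmL_congr pr (fun i => by rw [d3, d2, d1])
  funext i
  rcases cell_cases f i with ⟨h1, h2⟩ | ⟨h1, o, h2, h3⟩ | ⟨h1, h2⟩
  · rw [eAp_oc pr h1]
    have a2 : v2 i = v1 i := eAp_oc pr h1
    by_cases hY : f.t i = true
    · rw [oAd_pos h1 hY]
      have a3 : v3 i = { v2 i with Z := (v2 i).Z + Fm pr .H (vw f v2 i) } := act_O_pos pr h1 hY
      have a1 : v1 i = { v i with Z := (v i).Z + Fm pr .H (vw f v i) } := act_O_pos pr h1 hY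
      rw [a3, a2, a1]
      have key : Fm pr .H (vw f v i) + Fm pr .H (vw f v2 i) = ((0, 0, rho pr f v i) : M N) := by
        cases h4 : f.lk i with
        | none =>
          have e1 : vw f v i = none := by unfold vw; rw [h4]; rfl
          have e2 : vw f v2 i = none := by unfold vw; rw [h4]; rfl
          have e3 : rho pr f v i = 0 := by unfold rho; rw [h4]
          rw [e1, e2, e3]
          rfl
        | some e =>
          obtain ⟨-, o', h5, h6⟩ := f.h2 i e h4
          have e1 : vw f v i = some (f.t e, v e) := by unfold vw; rw [h4]; rfl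
          have e2 : vw f v2 i = some (f.t e, v2 e) := by unfold vw; rw [h4]; rfl
          have e3 : rho pr f v i = (Fm pr .L (vw f v o')).2.1 := by
            unfold rho rho1; rw [h4]; simp only [h5]
          have b1 : v1 e = v e := act_O_oc pr (f.h1 e o' h5).2
          have b2 : v2 e = actE pr .addB (f.t e) (Fm pr .L (vw f v1 o')) (v1 e) :=
            eAp_some pr h5 (by rw [h6, hY]; rfl)
          rw [e1, e2, e3, b2, b1, L1 o']
          show ((0, 0, (v e).B) : M N) + (0, 0, (v e).B + (Fm pr .L (vw f v o')).2.1)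
            = (0, 0, (Fm pr .L (vw f v o')).2.1)
          refine Prod.ext (add_zero _) (Prod.ext (add_zero _) ?_)
          show (v e).B + ((v e).B + (Fm pr .L (vw f v o')).2.1) = (Fm pr .L (vw f v o')).2.1
          rw [← add_assoc, g2, zero_add]
      rw [← key]
      simp only [add_assoc]
    · rw [oAd_ne hY]
      have a3 : v3 i = v2 i := act_O_ne pr hY
      have a1 : v1 i = v i := act_O_ne pr hY
      rw [a3, a2, a1]
  · rw [oAd_oc h1]
    have a1 : v1 i = v i := act_O_oc pr h1
    have a3 : v3 i = v2 i := act_O_oc pr h1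
    by_cases hY : f.t o = false
    · rw [eAp_some pr h2 hY]
      have a2 : v2 i = actE pr .addB (f.t i) (Fm pr .L (vw f v1 o)) (v1 i) := eAp_some pr h2 hY
      rw [a3, a2, L3, L1, a1]
      exact actE_self pr _ _ _ _
    · rw [eAp_ne pr h2 hY]
      have a2 : v2 i = v1 i := eAp_ne pr h2 hY
      rw [a3, a2, a1]
  · rw [oAd_oc h1, eAp_none pr h2]
    have a1 : v1 i = v i := act_O_oc pr h1
    have a3 : v3 i = v2 i := act_O_oc pr h1
    have a2 : v2 i = v1 i := eAp_none pr h2
    rw [a3, a2, a1]

theorem run_uwd (f : Fr I) (v : I → V N) :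
    run pr f uwd v = eAp pr f .rot true (fun o => (0, 0, rho pr f v o)) v := by
  have e0 : run pr f uwd v = run pr f twd (act pr f (.E .rot true)
      (run pr f twd (act pr f (.E .rot true) v))) := by
    unfold uwd
    rw [run_cons, run_append, run_cons]
  rw [e0, run_twd, run_twd]
  set v1 := act pr f (.E .rot true) v with hv1
  set v2 := oAd f true (fun o => (0, 0, rho pr f v1 o)) v1 with hv2
  set v3 := act pr f (.E .rot true) v2 with hv3
  have d1 : ∀ i, (v1 i).d = (v i).d := fun i => eAp_d pr (rot_d pr) i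
  have d2 : ∀ i, (v2 i).d = (v1 i).d := fun i => oAd_d i
  have d3 : ∀ i, (v3 i).d = (v2 i).d := fun i => eAp_d pr (rot_d pr) i
  have r1 : rho pr f v1 = rho pr f v := rho_congr pr d1
  have r3 : rho pr f v3 = rho pr f v := rho_congr pr (fun i => by rw [d3, d2, d1])
  rw [r3]
  funext i
  rcases cell_cases f i with ⟨h1, h2⟩ | ⟨h1, o, h2, h3⟩ | ⟨h1, h2⟩
  · rw [eAp_oc pr h1]
    have a1 : v1 i = v i := act_E_oc pr h1
    have a3 : v3 i = v2 i := act_E_oc pr h1
    by_cases hY : f.t i = true
    · rw [oAd_pos h1 hY]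
      have a2 : v2 i = { v1 i with Z := (v1 i).Z + (0, 0, rho pr f v1 i) } := oAd_pos h1 hY
      rw [a3, a2, a1, r1]
      simp only [m_add_cancel]
    · rw [oAd_ne hY]
      have a2 : v2 i = v1 i := oAd_ne hY
      rw [a3, a2, a1]
  · rw [oAd_oc h1]
    have a2 : v2 i = v1 i := oAd_oc h1
    by_cases hY : f.t o = true
    · rw [eAp_some pr h2 hY]
      have a1 : v1 i = actE pr .rot (f.t i) (v o).Z (v i) := act_E_some pr h2 hY
      have a3 : v3 i = actE pr .rot (f.t i) (v2 o).Z (v2 i) := act_E_some pr h2 hY
      have b1 : v1 o = v o := act_E_oc pr h3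
      have b2 : v2 o = { v1 o with Z := (v1 o).Z + (0, 0, rho pr f v1 o) } := oAd_pos h3 hY
      rw [a3, a2, b2, b1, r1, a1]
      exact actE_add pr _ _ _ _ _
    · rw [eAp_ne pr h2 hY]
      have a1 : v1 i = v i := act_E_ne pr h2 hY
      have a3 : v3 i = v2 i := act_E_ne pr h2 hY
      rw [a3, a2, a1]
  · rw [oAd_oc h1, eAp_none pr h2]
    have a1 : v1 i = v i := act_E_none pr h2
    have a2 : v2 i = v1 i := oAd_oc h1
    have a3 : v3 i = v2 i := act_E_none pr h2
    rw [a3, a2, a1]

open Classical in
/-- adding the message `m` to the array entry `r` -/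
noncomputable def rAd (x : V N) (r : G N) (m : M N) : V N :=
  { x with R := fun y => if y = r then x.R y + m else x.R y }

theorem g_eq_iff (x r : G N) : x + r = 0 ↔ x = r := by
  constructor
  · intro h
    have : x + r + r = 0 + r := by rw [h]
    rw [add_assoc, g2, add_zero, zero_add] at this
    exact this
  · rintro rfl
    exact g2 _

theorem rot_conj (t : Bool) (x : V N) (r : G N) (m : M N) :
    actE pr .rot t (0, 0, r) (actE pr .addR t m (actE pr .rot t (0, 0, r) x)) = rAd x r m := by
  simp only [actE, rAd]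
  congr 1
  funext y
  by_cases h : y = r
  · have h' : y + r = 0 := (g_eq_iff y r).mpr h
    rw [if_pos h', if_pos h, h', zero_add, h]
  · have h' : ¬ y + r = 0 := fun h2 => h ((g_eq_iff y r).mp h2)
    rw [if_neg h', if_neg h, add_assoc, g2, add_zero]

theorem run_wwd (f : Fr I) (a : Osh) (v : I → V N) (i : I) :
    run pr f (wwd a) v i = match f.dr i with
      | some o => if f.t o = true then rAd (v i) (rho pr f v o) (Fm pr a (vw f v o)) else v i
      | none => v i := by
  have e0 : run pr f (wwd a) v = run pr f uwd (run pr f (cmw .addR a true) (run pr f uwd v)) := by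
    unfold wwd
    rw [run_append, run_append]
  rw [e0, run_uwd, run_uwd, run_cmw]
  set v1 := eAp pr f .rot true (fun o => (0, 0, rho pr f v o)) v with hv1
  set v2 := eAp pr f .addR true (fun o => Fm pr a (vw f v1 o)) v1 with hv2
  have d1 : ∀ i, (v1 i).d = (v i).d := fun i => eAp_d pr (rot_d pr) i
  have d2 : ∀ i, (v2 i).d = (v1 i).d := fun i => eAp_d pr (addR_d pr) i
  have r2 : rho pr f v2 = rho pr f v := rho_congr pr (fun i => by rw [d2, d1])
  rcases cell_cases f i with ⟨h1, h2⟩ | ⟨h1, o, h2, h3⟩ | ⟨h1, h2⟩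
  · rw [eAp_oc pr h1, h2]
    have a2 : v2 i = v1 i := eAp_oc pr h1
    have a1 : v1 i = v i := eAp_oc pr h1
    rw [a2, a1]
  · rw [h2]
    simp only
    by_cases hY : f.t o = true
    · rw [if_pos hY, eAp_some pr h2 hY]
      have a1 : v1 i = actE pr .rot (f.t i) (0, 0, rho pr f v o) (v i) := eAp_some pr h2 hY
      have a2 : v2 i = actE pr .addR (f.t i) (Fm pr a (vw f v1 o)) (v1 i) := eAp_some pr h2 hY
      have b1 : vw f v1 o = vw f v o := vw_eAp pr hY
      rw [a2, a1, b1, r2]
      exact rot_conj pr _ _ _ _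
    · rw [if_neg hY, eAp_ne pr h2 hY]
      have a1 : v1 i = v i := eAp_ne pr h2 hY
      have a2 : v2 i = v1 i := eAp_ne pr h2 hY
      rw [a2, a1]
  · rw [h2, eAp_none pr h2]
    have a1 : v1 i = v i := eAp_none pr h2
    have a2 : v2 i = v1 i := eAp_none pr h2
    rw [a2, a1]

theorem actE_bt_uu (k : Kb) (t : Bool) (x : V N) : actE pr (.bt k) t uu x = th pr k t x := by
  simp [actE, uu]

theorem own_core (c : Cnd) (t : Bool) (x : V N) (r : G N) (m : M N) :
    rAd (th pr (.own c) t (rAd (th pr (.own c) t x) r m)) r m =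
      (open Classical in if cc pr c x.d t ∧ io x.d t = r then { x with Z := x.Z + m } else x) := by
  classical
  by_cases h : cc pr c x.d t
  · have e1 : th pr (.own c) t x = { x with Z := x.Z + x.R (io x.d t) } := if_pos h
    have e2 : ∀ y : V N, y.d = x.d → th pr (.own c) t y = { y with Z := y.Z + y.R (io y.d t) } := by
      intro y hy
      have : cc pr c y.d t := by rw [hy]; exact h
      exact if_pos this
    rw [e1, e2 (rAd { x with Z := x.Z + x.R (io x.d t) } r m) rfl]
    by_cases h2 : io x.d t = r
    · rw [if_pos ⟨h, h2⟩]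
      simp only [rAd, h2, if_true]
      apply V.ext
      · rfl
      · show x.Z + x.R r + (x.R r + m) = x.Z + m
        rw [add_assoc, ← add_assoc (x.R r), m2, zero_add]
      · rfl
      · funext y
        by_cases hy : y = r
        · simp only [hy, if_true, m_add_cancel]
        · simp only [hy, if_false]
    · rw [if_neg (fun hh => h2 hh.2)]
      simp only [rAd, h2, if_false]
      apply V.ext
      · rfl
      · exact m_add_cancel _ _
      · rfl
      · funext y
        by_cases hy : y = r
        · simp only [hy, if_true, m_add_cancel]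
        · simp only [hy, if_false]
  · have e2 : ∀ y : V N, y.d = x.d → th pr (.own c) t y = y := by
      intro y hy
      have : ¬ cc pr c y.d t := by rw [hy]; exact h
      exact if_neg this
    rw [e2 x rfl, e2 (rAd x r m) rfl, if_neg (fun hh => h hh.1)]
    apply V.ext
    · rfl
    · rfl
    · rfl
    · funext y
      simp only [rAd]
      by_cases hy : y = r
      · simp only [hy, if_true, m_add_cancel]
      · simp only [hy, if_false]

theorem run_own (f : Fr I) (c : Cnd) (v : I → V N) :
    run pr f (own c) v = eAp pr f (.bt (.own c)) true (fun _ => uu) v := by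
  unfold own
  rw [run_cmw]
  congr 1

open Classical in
theorem run_owd (f : Fr I) (c : Cnd) (a : Osh) (v : I → V N) (i : I) :
    run pr f (owd c a) v i = match f.dr i with
      | some o => if f.t o = true ∧ cc pr c (v i).d (f.t i) ∧ io (v i).d (f.t i) = rho pr f v o
          then { v i with Z := (v i).Z + Fm pr a (vw f v o) } else v i
      | none => v i := by
  have e0 : run pr f (owd c a) v = run pr f (wwd a) (run pr f (own c) (run pr f (wwd a)
      (run pr f (own c) v))) := by
    unfold owd
    rw [run_append, run_append, run_append]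
  rw [e0]
  set v1 := run pr f (own c) v with hv1
  set v2 := run pr f (wwd a) v1 with hv2
  set v3 := run pr f (own c) v2 with hv3
  have k1 : v1 = eAp pr f (.bt (.own c)) true (fun _ => uu) v := run_own pr f c v
  have k3 : v3 = eAp pr f (.bt (.own c)) true (fun _ => uu) v2 := run_own pr f c v2
  have k2 : ∀ i, v2 i = match f.dr i with
      | some o => if f.t o = true then rAd (v1 i) (rho pr f v1 o) (Fm pr a (vw f v1 o)) else v1 i
      | none => v1 i := run_wwd pr f a v1
  have d1 : ∀ i, (v1 i).d = (v i).d := fun i => by rw [k1]; exact eAp_d pr (own_d pr c) i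
  have d2 : ∀ i, (v2 i).d = (v1 i).d := fun i => by
    rw [k2 i]
    cases h : f.dr i with
    | none => rfl
    | some o =>
      simp only
      split_ifs <;> rfl
  have d3 : ∀ i, (v3 i).d = (v2 i).d := fun i => by rw [k3]; exact eAp_d pr (own_d pr c) i
  have r1 : rho pr f v1 = rho pr f v := rho_congr pr d1
  have r3 : rho pr f v3 = rho pr f v := rho_congr pr (fun i => by rw [d3, d2, d1])
  have hv : ∀ o, f.t o = true → vw f v1 o = vw f v o := fun o ho => by rw [k1]; exact vw_eAp pr ho
  have hv2' : ∀ o, f.t o = true → vw f v2 o = vw f v1 o := by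
    intro o ho
    apply vw_congr
    intro e he
    obtain ⟨-, o', h5, h6⟩ := f.h2 o e he
    rw [k2 e, h5]
    simp only
    rw [if_neg]
    rw [h6, ho]
    simp
  have hv3' : ∀ o, f.t o = true → vw f v3 o = vw f v o := fun o ho => by
    rw [k3, vw_eAp pr ho, hv2' o ho, hv o ho]
  rw [run_wwd]
  rcases cell_cases f i with ⟨h1, h2⟩ | ⟨h1, o, h2, h3⟩ | ⟨h1, h2⟩
  · have a3 : v3 i = v2 i := by rw [k3]; exact eAp_oc pr h1
    have a2 : v2 i = v1 i := by rw [k2 i, h2]
    have a1 : v1 i = v i := by rw [k1]; exact eAp_oc pr h1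
    rw [h2]
    simp only
    rw [a3, a2, a1]
  · rw [h2]
    simp only
    by_cases hY : f.t o = true
    · rw [if_pos hY]
      have a3 : v3 i = th pr (.own c) (f.t i) (v2 i) := by
        rw [k3, eAp_some pr h2 hY, actE_bt_uu]
      have a2 : v2 i = rAd (v1 i) (rho pr f v1 o) (Fm pr a (vw f v1 o)) := by
        rw [k2 i, h2]
        simp only
        rw [if_pos hY]
      have a1 : v1 i = th pr (.own c) (f.t i) (v i) := by
        rw [k1, eAp_some pr h2 hY, actE_bt_uu]
      rw [r3, hv3' o hY, a3, a2, a1, r1, hv o hY, own_core]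
      by_cases h4 : cc pr c (v i).d (f.t i) ∧ io (v i).d (f.t i) = rho pr f v o
      · rw [if_pos h4, if_pos ⟨hY, h4⟩]
      · rw [if_neg h4, if_neg (fun hh => h4 hh.2)]
    · rw [if_neg hY, if_neg (fun hh => hY hh.1)]
      have a3 : v3 i = v2 i := by rw [k3]; exact eAp_ne pr h2 hY
      have a2 : v2 i = v1 i := by
        rw [k2 i, h2]
        simp only
        rw [if_neg hY]
      have a1 : v1 i = v i := by rw [k1]; exact eAp_ne pr h2 hY
      rw [a3, a2, a1]
  · rw [h2]
    simp only
    have a3 : v3 i = v2 i := by rw [k3]; exact eAp_none pr h2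
    have a2 : v2 i = v1 i := by rw [k2 i, h2]
    have a1 : v1 i = v i := by rw [k1]; exact eAp_none pr h2
    rw [a3, a2, a1]

end Pool.Agent.J6H71.Dist
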