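import Pool.Agent.J6H71.Dist.C

/-!
Systems, the virtual system one level up, and the emulation of one gate.
-/

set_option autoImplicit false

namespace Pool.Agent.J6H71.Dist

variable {N : ℕ} {I : Type} (pr : Par N)

theorem fr_ext {f g : Fr I} (h1 : f.oc = g.oc) (h2 : f.dr = g.dr) (h3 : f.lk = g.lk)
    (h4 : f.t = g.t) : f = g := by
  cases f; cases g
  simp only at h1 h2 h3 h4
  subst h1 h2 h3 h4
  rfl

/-- a system of cells -/
structure Sys (I : Type) where
  al : I → Bool
  p : I → Bool
  t : I → Bool
  nx : I → Option I
  hn : ∀ i j, nx i = some j → al i = true ∧ al j = true ∧ p j = !(p i)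

open Classical in
/-- the link of an odd cell -/
noncomputable def lkf (S : Sys I) (v : I → V N) (i : I) : Option I :=
  if S.p i = true then
    (S.nx i).bind fun e => (S.nx e).bind fun o =>
      if (v i).d = (v o).d ∧ S.t o = !(S.t i) then some e else none
  else none

theorem lkf_some {S : Sys I} {v : I → V N} {i e : I} (h : lkf S v i = some e) :
    S.p i = true ∧ S.nx i = some e ∧ ∃ o, S.nx e = some o ∧ (v i).d = (v o).d ∧
      S.t o = !(S.t i) := by
  unfold lkf at h
  by_cases hp : S.p i = true
  · rw [if_pos hp] at h
    cases h1 : S.nx i with
    | none => rw [h1] at h; exact absurd h (by simp)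
    | some e' =>
      rw [h1] at h
      simp only [Option.bind_some] at h
      cases h2 : S.nx e' with
      | none => rw [h2] at h; exact absurd h (by simp)
      | some o =>
        rw [h2] at h
        simp only [Option.bind_some] at h
        by_cases hc : (v i).d = (v o).d ∧ S.t o = !(S.t i)
        · rw [if_pos hc] at h
          have he : e' = e := Option.some.inj h
          subst he
          exact ⟨hp, rfl, o, h2, hc⟩
        · rw [if_neg hc] at h
          exact absurd h (by simp)
  · rw [if_neg hp] at h
    exact absurd h (by simp)

theorem lkf_of {S : Sys I} {v : I → V N} {i e o : I} (hp : S.p i = true) (h1 : S.nx i = some e)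
    (h2 : S.nx e = some o) (h3 : (v i).d = (v o).d) (h4 : S.t o = !(S.t i)) :
    lkf S v i = some e := by
  unfold lkf
  rw [if_pos hp, h1]
  simp only [Option.bind_some]
  rw [h2]
  simp only [Option.bind_some]
  rw [if_pos ⟨h3, h4⟩]

/-- the driver of an even cell -/
def drf (S : Sys I) (i : I) : Option I := if S.p i = false then S.nx i else none

/-- the frame of a system -/
noncomputable def fr (S : Sys I) (v : I → V N) : Fr I where
  oc i := S.al i && S.p i
  dr := drf S
  lk := lkf S v
  t := S.t
  h1 := by
    intro e o h
    unfold drf at h
    by_cases hp : S.p e = false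
    · rw [if_pos hp] at h
      obtain ⟨h1, h2, h3⟩ := S.hn e o h
      rw [h2, h3, hp]
      simp
    · rw [if_neg hp] at h
      exact absurd h (by simp)
  h2 := by
    intro o e h
    obtain ⟨hp, h1, o', h2, h3, h4⟩ := lkf_some h
    obtain ⟨a1, a2, a3⟩ := S.hn o e h1
    refine ⟨by rw [a1, hp]; rfl, o', ?_, h4⟩
    unfold drf
    rw [if_pos (by rw [a3, hp]; rfl), h2]

theorem fr_congr {S : Sys I} {v v' : I → V N}
    (h : ∀ i, S.al i = true → S.p i = true → (v i).d = (v' i).d) : fr S v = fr S v' := by
  refine fr_ext rfl rfl ?_ rfl
  funext i
  show lkf S v i = lkf S v' i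
  unfold lkf
  by_cases hp : S.p i = true
  · rw [if_pos hp, if_pos hp]
    cases h1 : S.nx i with
    | none => rfl
    | some e =>
      simp only [Option.bind_some]
      cases h2 : S.nx e with
      | none => rfl
      | some o =>
        simp only [Option.bind_some]
        obtain ⟨a1, a2, a3⟩ := S.hn i e h1
        obtain ⟨b1, b2, b3⟩ := S.hn e o h2
        rw [h i a1 hp, h o b2 (by rw [b3, a3, hp]; rfl)]
  · rw [if_neg hp, if_neg hp]

/-- the virtual system of a frame -/
def vir (f : Fr I) : Sys I where
  al i := (f.dr i).isSome
  p i := match f.dr i with
    | some o => f.t o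
    | none => false
  t := f.t
  nx i := (f.dr i).bind f.lk
  hn := by
    intro i j h
    cases h1 : f.dr i with
    | none => rw [h1] at h; exact absurd h (by simp)
    | some o =>
      rw [h1] at h
      simp only [Option.bind_some] at h
      obtain ⟨-, o', h2, h3⟩ := f.h2 o j h
      simp only [h2, h3, Option.isSome_some]
      simp

/-- the digit class of a cell -/
def cls (f : Fr I) (v : I → V N) (i : I) : Option (ZMod N) :=
  if f.oc i = true then some (v i).d else (f.dr i).map fun o => (v o).d

/-- execution of words depending on the digit class -/
noncomputable def Ex (f : Fr I) (W : ZMod N → List Knd) (v : I → V N) : I → V N :=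
  fun i => match cls f v i with
    | some d => run pr f (W d) v i
    | none => v i

theorem cls_oc {f : Fr I} {v : I → V N} {i : I} (h : f.oc i = true) :
    cls f v i = some (v i).d := if_pos h

theorem cls_dr {f : Fr I} {v : I → V N} {i o : I} (h : f.dr i = some o) :
    cls f v i = some (v o).d := by
  unfold cls
  rw [if_neg (by rw [(f.h1 i o h).2]; simp), h]
  rfl

theorem cls_none {f : Fr I} {v : I → V N} {i : I} (h1 : f.oc i = false) (h : f.dr i = none) :
    cls f v i = none := by
  unfold cls
  rw [if_neg (by rw [h1]; simp), h]
  rfl

theorem Ex_some {f : Fr I} {W : ZMod N → List Knd} {v : I → V N} {i : I} {d : ZMod N}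
    (h : cls f v i = some d) : Ex pr f W v i = run pr f (W d) v i := by
  unfold Ex
  rw [h]

theorem Ex_none {f : Fr I} {W : ZMod N → List Knd} {v : I → V N} {i : I}
    (h : cls f v i = none) : Ex pr f W v i = v i := by
  unfold Ex
  rw [h]

/-- the relay mode -/
def rmd (m : Option Bool) (b : Esh) : Rm :=
  match m with
  | none => if b = .addR then .fb else .fs
  | some false => .j0
  | some true => .j1

/-- the condition of an own gate -/
def cnm (m : Option Bool) (a : Osh) (Y : Bool) : Cnd :=
  match m with
  | none => .fo a Y
  | some j => .jj j Y

/-- the emulating word -/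
def phi (m : Option Bool) (κ : Knd) : List Knd :=
  match κ with
  | .E b Y => cmw b (.rel (rmd m b) Y) false
  | .O a Y => if a = .C then cmw (.bt (.cv (cnm m a Y))) .C true else owd (cnm m a Y) a

/-- the digit condition -/
def Jm (m : Option Bool) (κ : Knd) (d : ZMod N) : Prop :=
  match m with
  | none => pr.sg d = some κ
  | some j => pr.J j d = true

open Classical in
theorem relay_act (m : Option Bool) (b : Esh) (Y t : Bool) (w x : V N) :
    actE pr b t (Fm pr (.rel (rmd m b) Y) (some (Y, w))) x =
      if Jm pr m (.E b Y) w.d then actE pr b t w.Z x else x := by
  have hz : ∀ z : M N, z = (z.1, z.2.1, z.2.2) := fun z => rfl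
  rcases m with _ | j
  · -- schedule mode
    by_cases hJ : Jm pr none (.E b Y) w.d
    · rw [if_pos hJ]
      have hJ' : pr.sg w.d = some (.E b Y) := hJ
      cases b with
      | addR =>
        have e : Fm pr (.rel (rmd none .addR) Y) (some (Y, w)) = w.Z := by
          simp only [Fm, rmd, if_true, cnd, hJ']
        rw [e]
      | addB => simp [Fm, rmd, cnd, hJ', actE]
      | rot => simp [Fm, rmd, cnd, hJ', actE]
      | bt k => simp [Fm, rmd, cnd, hJ', actE]
    · rw [if_neg hJ]
      have hJ' : ¬ pr.sg w.d = some (.E b Y) := hJ
      cases b with
      | addR =>
        have e : Fm pr (.rel (rmd none .addR) Y) (some (Y, w)) = 0 := by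
          simp only [Fm, rmd, if_true, cnd, hJ']
          rfl
        rw [e, actE_zero]
      | addB => simp [Fm, rmd, cnd, hJ', actE]
      | rot => simp [Fm, rmd, cnd, hJ', actE]
      | bt k => simp [Fm, rmd, cnd, hJ', actE]
  · by_cases hJ : Jm pr (some j) (.E b Y) w.d
    · rw [if_pos hJ]
      have hJ' : pr.J j w.d = true := hJ
      have e : Fm pr (.rel (rmd (some j) b) Y) (some (Y, w)) = w.Z := by
        cases j <;> simp only [Fm, rmd, if_true, cnd, hJ']
      rw [e]
    · rw [if_neg hJ]
      have hJ' : ¬ pr.J j w.d = true := hJ
      have e : Fm pr (.rel (rmd (some j) b) Y) (some (Y, w)) = 0 := by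
        cases j <;> simp only [Fm, rmd, cnd, hJ', if_true] <;> rfl
      rw [e, actE_zero]

theorem cc_cnm (m : Option Bool) (a : Osh) (Y : Bool) (d : ZMod N) (t : Bool) :
    cc pr (cnm m a Y) d t ↔ Jm pr m (.O a Y) d ∧ t = Y := by
  rcases m with _ | j
  · exact Iff.rfl
  · exact Iff.rfl

open Classical in
theorem emu (f : Fr I) (m : Option Bool) (κ : Knd) (v : I → V N) :
    run pr f (phi m κ) v = Ex pr (fr (vir f) v) (fun d => if Jm pr m κ d then [κ] else []) v := by
  set f1 := fr (vir f) v with hf1
  funext i
  rcases cell_cases f i with ⟨h1, h2⟩ | ⟨h1, o, h2, h3⟩ | ⟨h1, h2⟩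
  · -- odd cell: not in the virtual system
    have c1 : f1.oc i = false := by
      show ((f.dr i).isSome && _) = false
      rw [h2]; rfl
    have c2 : f1.dr i = none := by
      show drf (vir f) i = none
      unfold drf vir
      simp only [h2, Option.bind_none]
      split_ifs <;> rfl
    rw [Ex_none pr (cls_none c1 c2)]
    cases κ with
    | E b Y =>
      show run pr f (cmw _ _ _) v i = v i
      rw [run_cmw, eAp_oc pr h1]
    | O a Y =>
      unfold phi
      simp only
      split_ifs with ha
      · rw [run_cmw, eAp_oc pr h1]
      · rw [run_owd, h2]
  · -- even cell with a driver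
    have t1 : f1.t = f.t := rfl
    by_cases hY : f.t o = true
    · -- virtual odd cell
      have c0 : (vir f).p i = true := by
        show (match f.dr i with | some o => f.t o | none => false) = true
        rw [h2]; exact hY
      have c1 : f1.oc i = true := by
        show ((f.dr i).isSome && (vir f).p i) = true
        rw [h2, c0]; rfl
      rw [Ex_some pr (cls_oc c1)]
      cases κ with
      | E b Y =>
        have e1 : run pr f (phi m (.E b Y)) v i = v i := by
          show run pr f (cmw _ _ _) v i = v i
          rw [run_cmw, eAp_ne pr h2 (by rw [hY]; simp)]
        rw [e1]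
        split_ifs
        · rw [run_cons, run_nil, act_E_oc pr c1]
        · rfl
      | O a Y =>
        have e2 : run pr f1 (if Jm pr m (.O a Y) (v i).d then [Knd.O a Y] else []) v i =
            if Jm pr m (.O a Y) (v i).d ∧ f.t i = Y then
              { v i with Z := (v i).Z + Fm pr a (vw f1 v i) } else v i := by
          by_cases hJ : Jm pr m (.O a Y) (v i).d
          · rw [if_pos hJ, run_cons, run_nil]
            by_cases hY2 : f.t i = Y
            · rw [if_pos ⟨hJ, hY2⟩, act_O_pos pr c1 hY2]
            · rw [if_neg (fun h => hY2 h.2), act_O_ne (f := f1) pr hY2]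
          · rw [if_neg hJ, if_neg (fun h => hJ h.1)]
            rfl
        rw [e2]
        unfold phi
        simp only
        by_cases ha : a = .C
        · rw [if_pos ha, run_cmw, eAp_some pr h2 hY, ha]
          show actE pr (.bt (.cv (cnm m .C Y))) (f.t i) uu (v i) = _
          rw [actE_bt_uu]
          show (if cc pr (cnm m .C Y) (v i).d (f.t i) then { v i with Z := (v i).Z + uu } else v i) = _
          by_cases hc : Jm pr m (.O .C Y) (v i).d ∧ f.t i = Y
          · rw [if_pos ((cc_cnm pr m .C Y _ _).mpr hc), if_pos hc]
            rfl
          · rw [if_neg (fun h => hc ((cc_cnm pr m .C Y _ _).mp h)), if_neg hc]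
        · rw [if_neg ha, run_owd, h2]
          simp only
          by_cases hc : Jm pr m (.O a Y) (v i).d ∧ f.t i = Y
          · rw [if_pos hc]
            have hcc := (cc_cnm pr m a Y _ _).mpr hc
            -- compare the views
            have hvw : vw f1 v i = (lkf (vir f) v i).map fun e => (f.t e, v e) := rfl
            have hnx : (vir f).nx i = f.lk o := by
              show (f.dr i).bind f.lk = _
              rw [h2]; rfl
            cases hl : f.lk o with
            | none =>
              have e3 : vw f v o = none := by unfold vw; rw [hl]; rfl
              have e4 : vw f1 v i = none := by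
                rw [hvw]
                unfold lkf
                rw [if_pos c0, hnx, hl]
                rfl
              rw [e3, e4, Fm_none pr ha, add_zero]
              split_ifs <;> rfl
            | some e =>
              obtain ⟨-, o2, h5, h6⟩ := f.h2 o e hl
              have e3 : vw f v o = some (f.t e, v e) := by unfold vw; rw [hl]; rfl
              have hnx2 : (vir f).nx e = f.lk o2 := by
                show (f.dr e).bind f.lk = _
                rw [h5]; rfl
              have hrho : rho pr f v o = (Fm pr .L (vw f v o2)).2.1 := by
                unfold rho rho1; rw [hl]; simp only [h5]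
              cases hl2 : f.lk o2 with
              | none =>
                have e4 : vw f1 v i = none := by
                  rw [hvw]
                  unfold lkf
                  rw [if_pos c0, hnx, hl]
                  simp only [Option.bind_some]
                  rw [hnx2, hl2]
                  rfl
                have e5 : rho pr f v o = 0 := by
                  rw [hrho]; unfold vw; rw [hl2]; rfl
                rw [e4, Fm_none pr ha, add_zero, e5, if_neg (fun h => io_ne _ _ h.2.2)]
              | some e3' =>
                have e5 : rho pr f v o = io (v e3').d (!(f.t e3')) := by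
                  rw [hrho]; unfold vw; rw [hl2]; rfl
                by_cases hq : (v i).d = (v e3').d ∧ f.t e3' = !(f.t i)
                · have e4 : vw f1 v i = some (f.t e, v e) := by
                    rw [hvw, lkf_of c0 (by rw [hnx, hl]) (by rw [hnx2, hl2]) hq.1 hq.2]
                    rfl
                  rw [e4, e3, e5, if_pos]
                  refine ⟨hY, hcc, ?_⟩
                  rw [hq.1, hq.2, Bool.not_not]
                · have e4 : vw f1 v i = none := by
                    rw [hvw]
                    unfold lkf
                    rw [if_pos c0, hnx, hl]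
                    simp only [Option.bind_some]
                    rw [hnx2, hl2]
                    simp only [Option.bind_some]
                    have hq' : ¬ ((v i).d = (v e3').d ∧ (vir f).t e3' = !((vir f).t i)) := hq
                    rw [if_neg hq']
                    rfl
                  rw [e4, Fm_none pr ha, add_zero, e5, if_neg]
                  rintro ⟨-, -, h7⟩
                  obtain ⟨h8, h9⟩ := io_inj h7
                  apply hq
                  refine ⟨h8, ?_⟩
                  rw [h9, Bool.not_not]
          · rw [if_neg hc, if_neg]
            rintro ⟨-, h7, -⟩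
            exact hc ((cc_cnm pr m a Y _ _).mp h7)
    · -- virtual even cell
      rw [Bool.not_eq_true] at hY
      have c0 : (vir f).p i = false := by
        show (match f.dr i with | some o => f.t o | none => false) = false
        rw [h2]; exact hY
      have c1 : f1.oc i = false := by
        show ((f.dr i).isSome && (vir f).p i) = false
        rw [c0]; simp
      have hnx : (vir f).nx i = f.lk o := by
        show (f.dr i).bind f.lk = _
        rw [h2]; rfl
      have c2 : f1.dr i = f.lk o := by
        show drf (vir f) i = _
        unfold drf
        rw [if_pos c0, hnx]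
      cases κ with
      | O a Y =>
        have e1 : run pr f (phi m (.O a Y)) v i = v i := by
          unfold phi
          simp only
          split_ifs with ha
          · rw [run_cmw, eAp_ne pr h2 (by rw [hY]; simp)]
          · rw [run_owd, h2]
            simp only
            rw [if_neg (fun h => by rw [hY] at h; exact absurd h.1 (by simp))]
        rw [e1]
        cases hl : f.lk o with
        | none =>
          rw [hl] at c2
          rw [Ex_none pr (cls_none c1 c2)]
        | some e =>
          rw [hl] at c2
          rw [Ex_some pr (cls_dr c2)]
          split_ifs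
          · rw [run_cons, run_nil, act_O_oc pr c1]
          · rfl
      | E b Y =>
        show run pr f (cmw b (.rel (rmd m b) Y) false) v i = _
        rw [run_cmw, eAp_some pr h2 hY]
        cases hl : f.lk o with
        | none =>
          have e3 : vw f v o = none := by unfold vw; rw [hl]; rfl
          rw [hl] at c2
          rw [Ex_none pr (cls_none c1 c2)]
          rw [e3, Fm_none pr (by simp), actE_zero]
        | some e =>
          have e3 : vw f v o = some (f.t e, v e) := by unfold vw; rw [hl]; rfl
          rw [hl] at c2
          rw [Ex_some pr (cls_dr c2)]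
          rw [e3]
          by_cases hYe : f.t e = Y
          · rw [hYe, relay_act]
            by_cases hJ : Jm pr m (.E b Y) (v e).d
            · rw [if_pos hJ, if_pos hJ, run_cons, run_nil, act_E_some pr c2 hYe, t1]
            · rw [if_neg hJ, if_neg hJ]
              rfl
          · have e5 : Fm pr (.rel (rmd m b) Y) (some (f.t e, v e)) = 0 := by
              simp only [Fm]
              rw [if_neg hYe]
            rw [e5, actE_zero]
            split_ifs
            · rw [run_cons, run_nil, act_E_ne pr c2 hYe]
            · rfl
  · have c1 : f1.oc i = false := by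
      show ((f.dr i).isSome && _) = false
      rw [h2]; rfl
    have c2 : f1.dr i = none := by
      show drf (vir f) i = none
      unfold drf vir
      simp only [h2, Option.bind_none]
      split_ifs <;> rfl
    rw [Ex_none pr (cls_none c1 c2)]
    cases κ with
    | E b Y =>
      show run pr f (cmw _ _ _) v i = v i
      rw [run_cmw, eAp_none pr h2]
    | O a Y =>
      unfold phi
      simp only
      split_ifs with ha
      · rw [run_cmw, eAp_none pr h2]
      · rw [run_owd, h2]

end Pool.Agent.J6H71.Dist
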