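import Pool.Agent.J6H71.Dist.D

/-!
The calculus of class-dependent executions, the basic step and its powers.
-/

set_option autoImplicit false

namespace Pool.Agent.J6H71.Dist

variable {N : ℕ} {I : Type} (pr : Par N)

/-- equal digits on the odd cells -/
def Od (f : Fr I) (v v' : I → V N) : Prop := ∀ i, f.oc i = true → (v i).d = (v' i).d

theorem Od.refl (f : Fr I) (v : I → V N) : Od f v v := fun _ _ => rfl

theorem Od.symm {f : Fr I} {v v' : I → V N} (h : Od f v v') : Od f v' v :=
  fun i hi => (h i hi).symm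

theorem Od.trans {f : Fr I} {v v' v'' : I → V N} (h : Od f v v') (h' : Od f v' v'') :
    Od f v v'' := fun i hi => (h i hi).trans (h' i hi)

theorem act_od (f : Fr I) (κ : Knd) (v : I → V N) : Od f v (act pr f κ v) := by
  intro i hi
  cases κ with
  | O a Y => rw [act_O]; exact (oAd_d i).symm
  | E b Y => rw [act_E, eAp_oc pr hi]

theorem run_od (f : Fr I) (w : List Knd) (v : I → V N) : Od f v (run pr f w v) := by
  induction w generalizing v with
  | nil => exact Od.refl f v
  | cons κ w ih =>
    rw [run_cons]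
    exact (act_od pr f κ v).trans (ih _)

theorem cls_congr {f : Fr I} {v v' : I → V N} (h : Od f v v') (i : I) :
    cls f v i = cls f v' i := by
  rcases cell_cases f i with ⟨h1, h2⟩ | ⟨h1, o, h2, h3⟩ | ⟨h1, h2⟩
  · rw [cls_oc h1, cls_oc h1, h i h1]
  · rw [cls_dr h2, cls_dr h2, h o h3]
  · rw [cls_none h1 h2, cls_none h1 h2]

theorem Ex_od (f : Fr I) (W : ZMod N → List Knd) (v : I → V N) : Od f v (Ex pr f W v) := by
  intro i hi
  rw [Ex_some pr (cls_oc hi)]
  exact run_od pr f _ v i hi

/-- links join odd cells with equal digits -/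
def Cmp (f : Fr I) (v : I → V N) : Prop :=
  ∀ o e o', f.lk o = some e → f.dr e = some o' → (v o).d = (v o').d

theorem Cmp.congr {f : Fr I} {v v' : I → V N} (h : Cmp f v) (hv : Od f v v') : Cmp f v' := by
  intro o e o' h1 h2
  rw [← hv o (f.h2 o e h1).1, ← hv o' (f.h1 e o' h2).1]
  exact h o e o' h1 h2

theorem cmp_fr (S : Sys I) (v : I → V N) : Cmp (fr S v) v := by
  intro o e o' h1 h2
  obtain ⟨a1, a2, o2, a3, a4, a5⟩ := lkf_some (S := S) (v := v) h1
  have h3 : drf S e = some o' := h2
  unfold drf at h3
  split_ifs at h3 with h4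
  rw [a3] at h3
  rw [a4, Option.some.inj h3]

/-- agreement on a digit class -/
def Ag (f : Fr I) (v : I → V N) (d : ZMod N) (y y' : I → V N) : Prop :=
  ∀ i, cls f v i = some d → y i = y' i

theorem act_ag {f : Fr I} {v : I → V N} (hc : Cmp f v) {d : ZMod N} {y y' : I → V N}
    (h : Ag f v d y y') (κ : Knd) : Ag f v d (act pr f κ y) (act pr f κ y') := by
  intro i hi
  rcases cell_cases f i with ⟨h1, h2⟩ | ⟨h1, o, h2, h3⟩ | ⟨h1, h2⟩
  · cases κ with
    | O a Y =>
      by_cases hY : f.t i = Y
      · rw [act_O_pos pr h1 hY, act_O_pos pr h1 hY, h i hi]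
        have : vw f y i = vw f y' i := by
          apply vw_congr
          intro e he
          obtain ⟨-, o', h5, h6⟩ := f.h2 i e he
          apply h
          rw [cls_dr h5, ← hc i e o' he h5, ← cls_oc h1, hi]
        rw [this]
      · rw [act_O_ne pr hY, act_O_ne pr hY, h i hi]
    | E b Y => rw [act_E_oc pr h1, act_E_oc pr h1, h i hi]
  · cases κ with
    | O a Y => rw [act_O_oc pr h1, act_O_oc pr h1, h i hi]
    | E b Y =>
      by_cases hY : f.t o = Y
      · rw [act_E_some pr h2 hY, act_E_some pr h2 hY, h i hi]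
        have : y o = y' o := by
          apply h
          rw [cls_oc h3, ← cls_dr h2, hi]
        rw [this]
      · rw [act_E_ne pr h2 hY, act_E_ne pr h2 hY, h i hi]
  · rw [cls_none h1 h2] at hi
    exact absurd hi (by simp)

theorem run_ag {f : Fr I} {v : I → V N} (hc : Cmp f v) {d : ZMod N} {y y' : I → V N}
    (h : Ag f v d y y') (w : List Knd) : Ag f v d (run pr f w y) (run pr f w y') := by
  induction w generalizing y y' with
  | nil => exact h
  | cons κ w ih =>
    rw [run_cons, run_cons]
    exact ih (act_ag pr hc h κ)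

theorem Ex_ag (f : Fr I) (v : I → V N) (W : ZMod N → List Knd) (d : ZMod N) :
    Ag f v d (Ex pr f W v) (run pr f (W d) v) := fun _ hi => Ex_some pr hi

theorem Ex_Ex {f : Fr I} {v : I → V N} (hc : Cmp f v) (W W' : ZMod N → List Knd) :
    Ex pr f W' (Ex pr f W v) = Ex pr f (fun d => W d ++ W' d) v := by
  funext i
  have h1 : cls f (Ex pr f W v) i = cls f v i := (cls_congr (Ex_od pr f W v) i).symm
  cases h : cls f v i with
  | none =>
    rw [Ex_none pr (h1.trans h), Ex_none pr h, Ex_none pr h]
  | some d =>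
    rw [Ex_some pr (h1.trans h), Ex_some pr h, run_append]
    exact run_ag pr hc (Ex_ag pr f v W d) (W' d) i h

theorem Ex_congr {f : Fr I} {v : I → V N} {W W' : ZMod N → List Knd}
    (h : ∀ d, run pr f (W d) v = run pr f (W' d) v) : Ex pr f W v = Ex pr f W' v := by
  funext i
  cases hc : cls f v i with
  | none => rw [Ex_none pr hc, Ex_none pr hc]
  | some d => rw [Ex_some pr hc, Ex_some pr hc, h d]

theorem Ex_nil (f : Fr I) (v : I → V N) : Ex pr f (fun _ => []) v = v := by
  funext i
  cases hc : cls f v i with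
  | none => rw [Ex_none pr hc]
  | some d => rw [Ex_some pr hc]; rfl

/-- shifting the digits of the odd cells -/
def adv (f : Fr I) (k : ZMod N) (v : I → V N) : I → V N :=
  fun i => if f.oc i = true then { v i with d := (v i).d + k } else v i

theorem adv_oc {f : Fr I} {k : ZMod N} {v : I → V N} {i : I} (h : f.oc i = true) :
    adv f k v i = { v i with d := (v i).d + k } := if_pos h

theorem adv_ne {f : Fr I} {k : ZMod N} {v : I → V N} {i : I} (h : f.oc i = false) :
    adv f k v i = v i := if_neg (by rw [h]; simp)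

theorem adv_adv (f : Fr I) (k l : ZMod N) (v : I → V N) :
    adv f l (adv f k v) = adv f (k + l) v := by
  funext i
  cases h : f.oc i with
  | true =>
    rw [adv_oc h, adv_oc h, adv_oc h]
    simp only [add_assoc]
  | false => rw [adv_ne h, adv_ne h, adv_ne h]

theorem adv_zero (f : Fr I) (v : I → V N) : adv f 0 v = v := by
  funext i
  cases h : f.oc i with
  | true =>
    rw [adv_oc h]
    simp only [add_zero]
  | false => rw [adv_ne h]

theorem act_adv (f : Fr I) (κ : Knd) (k : ZMod N) (v : I → V N) :
    act pr f κ (adv f k v) = adv f k (act pr f κ v) := by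
  funext i
  rcases cell_cases f i with ⟨h1, h2⟩ | ⟨h1, o, h2, h3⟩ | ⟨h1, h2⟩
  · rw [adv_oc h1]
    cases κ with
    | O a Y =>
      by_cases hY : f.t i = Y
      · rw [act_O_pos pr h1 hY, act_O_pos pr h1 hY, adv_oc h1]
        have : vw f (adv f k v) i = vw f v i := by
          apply vw_congr
          intro e he
          obtain ⟨-, o', h5, h6⟩ := f.h2 i e he
          exact adv_ne (f.h1 e o' h5).2
        rw [this]
      · rw [act_O_ne pr hY, act_O_ne pr hY, adv_oc h1]
    | E b Y => rw [act_E_oc pr h1, act_E_oc pr h1, adv_oc h1]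
  · rw [adv_ne h1]
    cases κ with
    | O a Y => rw [act_O_oc pr h1, act_O_oc pr h1, adv_ne h1]
    | E b Y =>
      by_cases hY : f.t o = Y
      · rw [act_E_some pr h2 hY, act_E_some pr h2 hY, adv_ne h1, adv_oc h3]
      · rw [act_E_ne pr h2 hY, act_E_ne pr h2 hY, adv_ne h1]
  · rw [adv_ne h1]
    cases κ with
    | O a Y => rw [act_O_oc pr h1, act_O_oc pr h1, adv_ne h1]
    | E b Y => rw [act_E_none pr h2, act_E_none pr h2, adv_ne h1]

theorem run_adv (f : Fr I) (w : List Knd) (k : ZMod N) (v : I → V N) :
    run pr f w (adv f k v) = adv f k (run pr f w v) := by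
  induction w generalizing v with
  | nil => rfl
  | cons κ w ih => rw [run_cons, run_cons, act_adv, ih]

theorem cls_adv (f : Fr I) (k : ZMod N) (v : I → V N) (i : I) :
    cls f (adv f k v) i = (cls f v i).map (· + k) := by
  rcases cell_cases f i with ⟨h1, h2⟩ | ⟨h1, o, h2, h3⟩ | ⟨h1, h2⟩
  · rw [cls_oc h1, cls_oc h1, adv_oc h1]; rfl
  · rw [cls_dr h2, cls_dr h2, adv_oc h3]; rfl
  · rw [cls_none h1 h2, cls_none h1 h2]; rfl

theorem Ex_adv (f : Fr I) (W : ZMod N → List Knd) (k : ZMod N) (v : I → V N) :
    Ex pr f W (adv f k v) = adv f k (Ex pr f (fun d => W (d + k)) v) := by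
  funext i
  have h0 := cls_adv f k v i
  cases hc : cls f v i with
  | none =>
    rw [hc] at h0
    rw [Ex_none pr h0]
    have hoc : f.oc i = false := by
      cases ho : f.oc i with
      | true => rw [cls_oc ho] at hc; exact absurd hc (by simp)
      | false => rfl
    rw [adv_ne hoc, adv_ne hoc, Ex_none pr hc]
  | some d =>
    rw [hc] at h0
    rw [Ex_some pr h0, run_adv]
    cases ho : f.oc i with
    | true => rw [adv_oc ho, adv_oc ho, Ex_some pr hc]
    | false => rw [adv_ne ho, adv_ne ho, Ex_some pr hc]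

theorem fr_adv (S : Sys I) (u v : I → V N) (k : ZMod N) :
    fr S (adv (fr S u) k v) = fr S v := by
  refine fr_ext rfl rfl ?_ rfl
  funext i
  show lkf S (adv (fr S u) k v) i = lkf S v i
  unfold lkf
  by_cases hp : S.p i = true
  · rw [if_pos hp, if_pos hp]
    cases h1 : S.nx i with
    | none => rfl
    | some e =>
      simp only [Option.bind_some]
      cases h2 : S.nx e with
      | none => rfl
      | some o =>
        simp only [Option.bind_some]
        obtain ⟨a1, a2, a3⟩ := S.hn i e h1
        obtain ⟨b1, b2, b3⟩ := S.hn e o h2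
        have ho : (fr S u).oc o = true := by
          show (S.al o && S.p o) = true
          rw [b2, b3, a3, hp]; rfl
        have hi : (fr S u).oc i = true := by
          show (S.al i && S.p i) = true
          rw [a1, hp]; rfl
        rw [adv_oc ho, adv_oc hi]
        simp only [add_left_inj]
  · rw [if_neg hp, if_neg hp]

theorem fr_od {S : Sys I} {u v v' : I → V N} (h : Od (fr S u) v v') : fr S v = fr S v' := by
  apply fr_congr
  intro i h1 h2
  apply h
  show (S.al i && S.p i) = true
  rw [h1, h2]; rfl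

theorem adv_fr (S : Sys I) (u u' v : I → V N) (k : ZMod N) :
    adv (fr S u) k v = adv (fr S u') k v := rfl

/-- the word of the schedule -/
def sgW (d : ZMod N) : List Knd := (pr.sg d).toList

/-- the basic step -/
noncomputable def step (S : Sys I) (v : I → V N) : I → V N :=
  adv (fr S v) 1 (Ex pr (fr S v) (sgW pr) v)

/-- the inverse of the basic step -/
noncomputable def stepI (S : Sys I) (v : I → V N) : I → V N :=
  Ex pr (fr S v) (sgW pr) (adv (fr S v) (-1) v)

theorem Ex_sgW_sgW {f : Fr I} {v : I → V N} (hc : Cmp f v) :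
    Ex pr f (sgW pr) (Ex pr f (sgW pr) v) = v := by
  rw [Ex_Ex pr hc]
  have h : ∀ d, run pr f (sgW pr d ++ sgW pr d) v = run pr f [] v := by
    intro d
    unfold sgW
    cases pr.sg d with
    | none => rfl
    | some κ =>
      show run pr f [κ, κ] v = v
      rw [run_cons, run_cons, run_nil, act_act]
  rw [Ex_congr pr (W' := fun _ => []) h, Ex_nil]

theorem fr_Ex (S : Sys I) (W : ZMod N → List Knd) (v : I → V N) :
    fr S (Ex pr (fr S v) W v) = fr S v := (fr_od (Ex_od pr (fr S v) W v)).symm

theorem fr_step (S : Sys I) (v : I → V N) : fr S (step pr S v) = fr S v := by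
  unfold step
  rw [fr_adv, fr_Ex]

theorem fr_stepI (S : Sys I) (v : I → V N) : fr S (stepI pr S v) = fr S v := by
  unfold stepI
  have h := fr_Ex pr S (sgW pr) (adv (fr S v) (-1) v)
  rw [fr_adv] at h
  exact h

theorem step_stepI (S : Sys I) (v : I → V N) : step pr S (stepI pr S v) = v := by
  have h1 := fr_stepI pr S v
  unfold step
  rw [h1]
  unfold stepI
  rw [Ex_sgW_sgW]
  · rw [adv_adv]
    have : (-1 + 1 : ZMod N) = 0 := by ring
    rw [this, adv_zero]
  · have := cmp_fr S (adv (fr S v) (-1) v)
    rw [fr_adv] at this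
    exact this

theorem stepI_step (S : Sys I) (v : I → V N) : stepI pr S (step pr S v) = v := by
  have h1 := fr_step pr S v
  unfold stepI
  rw [h1]
  unfold step
  rw [adv_adv]
  have : (1 + -1 : ZMod N) = 0 := by ring
  rw [this, adv_zero]
  exact Ex_sgW_sgW pr (cmp_fr S v)

/-- the word executed in `m` steps -/
def Wm (m : ℕ) (d : ZMod N) : List Knd := (List.range m).flatMap fun i : ℕ => sgW pr (d + (i : ZMod N))

theorem step_iter (S : Sys I) (m : ℕ) (v : I → V N) :
    (step pr S)^[m] v = adv (fr S v) m (Ex pr (fr S v) (Wm pr m) v) := by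
  induction m with
  | zero =>
    have : Wm pr 0 = fun _ : ZMod N => [] := by funext d; rfl
    rw [this, Ex_nil, Nat.cast_zero, adv_zero]
    rfl
  | succ m ih =>
    rw [Function.iterate_succ_apply', ih]
    unfold step
    rw [fr_adv, fr_Ex, Ex_adv, Ex_Ex pr (cmp_fr S v), adv_adv]
    have h1 : (fun d : ZMod N => Wm pr m d ++ sgW pr (d + m)) = Wm pr (m + 1) := by
      funext d
      unfold Wm
      rw [List.range_succ, List.flatMap_append]
      simp
    rw [h1]
    push_cast
    rfl

end Pool.Agent.J6H71.Dist
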