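import Pool.Agent.J6H71.Dist.E

/-!
Emulation of the basic step, letters, and the lift of words.
-/

set_option autoImplicit false

namespace Pool.Agent.J6H71.Dist

variable {N : ℕ} {I : Type} (pr : Par N)

/-- all elements of a finite type -/
noncomputable def allOf (α : Type) [Fintype α] : List α := (Finset.univ : Finset α).toList

theorem mem_allOf {α : Type} [Fintype α] (a : α) : a ∈ allOf α := by
  unfold allOf
  rw [Finset.mem_toList]
  exact Finset.mem_univ a

theorem allOf_nodup (α : Type) [Fintype α] : (allOf α).Nodup := Finset.nodup_toList _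

/-- all kinds -/
noncomputable def kinds : List Knd := allOf Knd

theorem mem_kinds (κ : Knd) : κ ∈ kinds := mem_allOf κ

theorem kinds_nodup : kinds.Nodup := allOf_nodup Knd

def rfw (b : Bool) : List Knd := cmw (.bt (.ref b)) .C true

/-- the program -/
noncomputable def Pg : List Knd := kinds.flatMap (phi none) ++ (rfw false ++ rfw true)

open Classical in
theorem emu_list (f : Fr I) (v : I → V N) (l : List Knd) (hl : l.Nodup) :
    run pr f (l.flatMap (phi none)) v =
      Ex pr (fr (vir f) v) (fun d => match pr.sg d with
        | some κ => if κ ∈ l then [κ] else []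
        | none => []) v := by
  induction l using List.reverseRecOn with
  | nil =>
    have : (fun d : ZMod N => match pr.sg d with
        | some κ => if κ ∈ ([] : List Knd) then [κ] else []
        | none => []) = fun _ => [] := by
      funext d
      cases pr.sg d with
      | none => rfl
      | some κ => simp
    rw [this, Ex_nil]
    rfl
  | append_singleton l κ ih =>
    rw [List.flatMap_append, run_append]
    have hl' : l.Nodup := (List.nodup_append.mp hl).1
    have hκ : κ ∉ l := by
      intro hmem
      have := (List.nodup_append.mp hl).2.2 κ hmem κ (by simp)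
      exact this rfl
    rw [ih hl']
    have h1 : (([κ] : List Knd).flatMap (phi none)) = phi none κ := by simp
    rw [h1, emu, fr_Ex, Ex_Ex pr (cmp_fr _ _)]
    congr 1
    funext d
    unfold Jm
    cases hs : pr.sg d with
    | none => simp
    | some κ' =>
      simp only
      by_cases h2 : κ' = κ
      · subst h2
        simp [hκ]
      · by_cases h3 : κ' ∈ l
        · simp [h3, h2]
        · simp [h3, h2]

theorem emu_rfw (f : Fr I) (b : Bool) (v u : I → V N) (i : I) :
    run pr f (rfw b) v i = if (fr (vir f) u).oc i = true then
      { v i with d := refl b (v i).d } else v i := by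
  unfold rfw
  rw [run_cmw]
  rcases cell_cases f i with ⟨h1, h2⟩ | ⟨h1, o, h2, h3⟩ | ⟨h1, h2⟩
  · rw [eAp_oc pr h1, if_neg]
    show ¬ ((f.dr i).isSome && _) = true
    rw [h2]; simp
  · by_cases hY : f.t o = true
    · rw [eAp_some pr h2 hY, if_pos]
      · show actE pr (.bt (.ref b)) (f.t i) uu (v i) = _
        rw [actE_bt_uu]
        rfl
      · show ((f.dr i).isSome && (match f.dr i with | some o => f.t o | none => false)) = true
        rw [h2]
        simp [hY]
    · rw [eAp_ne pr h2 hY, if_neg]
      show ¬ ((f.dr i).isSome && (match f.dr i with | some o => f.t o | none => false)) = true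
      rw [h2]
      simp [hY]
  · rw [eAp_none pr h2, if_neg]
    show ¬ ((f.dr i).isSome && _) = true
    rw [h2]; simp

/-- The program emulates the basic step one level up. -/
theorem emu_step (f : Fr I) (v : I → V N) : run pr f Pg v = step pr (vir f) v := by
  classical
  unfold Pg
  rw [run_append, run_append, emu_list pr f v kinds kinds_nodup]
  unfold step
  have h1 : (fun d : ZMod N => match pr.sg d with
        | some κ => if κ ∈ kinds then [κ] else []
        | none => []) = sgW pr := by
    funext d
    unfold sgW
    cases pr.sg d with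
    | none => rfl
    | some κ => simp [mem_kinds]
  rw [h1]
  set y := Ex pr (fr (vir f) v) (sgW pr) v with hy
  funext i
  rw [emu_rfw pr f true _ v i, emu_rfw pr f false _ v i]
  by_cases h : (fr (vir f) v).oc i = true
  · rw [if_pos h, if_pos h, adv_oc h]
    simp only [refl, if_true]
    congr 1
    simp
    ring
  · rw [if_neg h, if_neg h]
    rw [Bool.not_eq_true] at h
    rw [adv_ne h]

/-- letters -/
inductive Lt | F | Fi | k (κ : Knd) (j : Bool)
  deriving DecidableEq, Fintype

/-- the action of a letter -/
noncomputable def actL (S : Sys I) (l : Lt) (v : I → V N) : I → V N :=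
  match l with
  | .F => step pr S v
  | .Fi => stepI pr S v
  | .k κ j => Ex pr (fr S v) (fun d => if pr.J j d = true then [κ] else []) v

/-- the action of a word -/
noncomputable def runL (S : Sys I) (w : List Lt) (v : I → V N) : I → V N :=
  w.foldl (fun v l => actL pr S l v) v

theorem runL_nil (S : Sys I) (v : I → V N) : runL pr S [] v = v := rfl

theorem runL_cons (S : Sys I) (l : Lt) (w : List Lt) (v : I → V N) :
    runL pr S (l :: w) v = runL pr S w (actL pr S l v) := rfl

theorem runL_append (S : Sys I) (w w' : List Lt) (v : I → V N) :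
    runL pr S (w ++ w') v = runL pr S w' (runL pr S w v) := by
  unfold runL
  rw [List.foldl_append]

/-- the word of kinds emulating a letter -/
noncomputable def phiL (l : Lt) : List Knd :=
  match l with
  | .F => Pg
  | .Fi => Pg.reverse
  | .k κ j => phi (some j) κ

theorem emuL (f : Fr I) (l : Lt) (v : I → V N) : run pr f (phiL l) v = actL pr (vir f) l v := by
  cases l with
  | F => exact emu_step pr f v
  | Fi =>
    show run pr f Pg.reverse v = stepI pr (vir f) v
    have h : run pr f Pg (stepI pr (vir f) v) = v := by rw [emu_step, step_stepI]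
    conv_lhs => rw [← h]
    exact run_reverse pr f Pg _
  | k κ j =>
    show run pr f (phi (some j) κ) v = _
    rw [emu]
    unfold actL
    simp only
    congr 1
    funext d
    unfold Jm
    simp only
    split_ifs <;> rfl

theorem runL_k (S : Sys I) (w : List Knd) (j : Bool) (v : I → V N) :
    runL pr S (w.map fun κ => Lt.k κ j) v =
      Ex pr (fr S v) (fun d => if pr.J j d = true then w else []) v := by
  induction w generalizing v with
  | nil =>
    have : (fun d : ZMod N => if pr.J j d = true then ([] : List Knd) else []) = fun _ => [] := by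
      funext d; simp
    rw [this, Ex_nil]
    rfl
  | cons κ w ih =>
    rw [List.map_cons, runL_cons, ih]
    unfold actL
    simp only
    rw [fr_Ex, Ex_Ex pr (cmp_fr S v)]
    congr 1
    funext d
    split_ifs <;> simp

theorem runL_F (S : Sys I) (m : ℕ) (v : I → V N) :
    runL pr S (List.replicate m Lt.F) v = (step pr S)^[m] v := by
  induction m generalizing v with
  | zero => rfl
  | succ m ih =>
    rw [List.replicate_succ, runL_cons, ih, Function.iterate_succ_apply]
    rfl

theorem runL_Fi (S : Sys I) (m : ℕ) (v : I → V N) :
    runL pr S (List.replicate m Lt.Fi) v = (stepI pr S)^[m] v := by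
  induction m generalizing v with
  | zero => rfl
  | succ m ih =>
    rw [List.replicate_succ, runL_cons, ih, Function.iterate_succ_apply]
    rfl

theorem stepI_iter (S : Sys I) (m : ℕ) (v : I → V N) :
    (stepI pr S)^[m] ((step pr S)^[m] v) = v := by
  have h : Function.LeftInverse (stepI pr S) (step pr S) := stepI_step pr S
  exact h.iterate m v

/-- the lift of a map of the virtual level -/
noncomputable def liftF (S : Sys I) (τ : (I → V N) → I → V N) (v : I → V N) : I → V N :=
  fun i => match cls (fr S v) v i with
    | some d => run pr (fr S v) (Pg.drop d.val).reverse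
        (τ (run pr (fr S v) (Pg.drop d.val) v)) i
    | none => v i

/-- the substitution on letters -/
noncomputable def PhiL (l : Lt) : List Lt :=
  (phiL l).map (fun κ => Lt.k κ false) ++ (List.replicate Pg.length Lt.F ++
    ((phiL l).map (fun κ => Lt.k κ true) ++ List.replicate Pg.length Lt.Fi))

/-- the parameters -/
structure Good : Prop where
  hN : 2 * Pg.length < N
  hs : ∀ d, pr.sg d = Pg[d.val]?
  hJ0 : ∀ d, pr.J false d = true ↔ Pg.length ≤ d.val
  hJ1 : ∀ d, pr.J true d = true ↔ Pg.length ≤ d.val ∧ d.val < 2 * Pg.length

theorem take_flatMap (P : List Knd) (a m : ℕ) :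
    (List.range m).flatMap (fun i => (P[a + i]?).toList) = (P.drop a).take m := by
  induction m with
  | zero => simp
  | succ m ih =>
    rw [List.range_succ, List.flatMap_append, ih, List.take_add_one, List.getElem?_drop]
    simp

variable {pr}

theorem Wm_low (hG : Good pr) {d : ZMod N} {m : ℕ} (h : d.val + m ≤ N) :
    Wm pr m d = (Pg.drop d.val).take m := by
  rw [← take_flatMap]
  have hN : NeZero N := ⟨by have := hG.hN; omega⟩
  unfold Wm
  apply List.flatMap_congr
  intro i hi
  rw [List.mem_range] at hi
  unfold sgW
  rw [hG.hs]
  congr 2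
  have h1 : (d + (i : ZMod N)).val = d.val + i := by
    rw [ZMod.val_add, ZMod.val_natCast, Nat.mod_eq_of_lt (show i < N by omega),
      Nat.mod_eq_of_lt (by omega)]
  rw [h1]

theorem Wm_add (m k : ℕ) (d : ZMod N) :
    Wm pr (m + k) d = Wm pr m d ++ Wm pr k (d + (m : ZMod N)) := by
  unfold Wm
  rw [List.range_add, List.flatMap_append]
  congr 1
  rw [List.flatMap_map]
  apply List.flatMap_congr
  intro i _
  simp only [Nat.cast_add, add_assoc]

theorem Wm_N (hG : Good pr) (d : ZMod N) : Wm pr N d = Pg.drop d.val ++ Pg.take d.val := by
  have hN : NeZero N := ⟨by have := hG.hN; omega⟩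
  have hlt : d.val < N := ZMod.val_lt d
  have e : N = (N - d.val) + d.val := by omega
  have h1 : Wm pr N d = Wm pr ((N - d.val) + d.val) d := by rw [← e]
  rw [h1, Wm_add, Wm_low hG (by omega)]
  have h2 : d + ((N - d.val : ℕ) : ZMod N) = 0 := by
    rw [Nat.cast_sub hlt.le]
    simp
  rw [h2, Wm_low hG (by simp; omega)]
  congr 1
  · apply List.take_of_length_le
    rw [List.length_drop]
    have := hG.hN
    omega
  · simp

theorem runL_PhiL (hG : Good pr) (S : Sys I) (l : Lt) (v : I → V N) :
    runL pr S (PhiL l) v = liftF pr S (actL pr (vir (fr S v)) l) v := by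
  have hN : NeZero N := ⟨by have := hG.hN; omega⟩
  set f := fr S v with hf
  have hc : Cmp f v := cmp_fr S v
  set W := phiL l with hW
  set p := Pg.length with hp
  unfold PhiL
  rw [runL_append, runL_append, runL_append, runL_k, runL_F, runL_k, runL_Fi]
  rw [← hf, ← hW, ← hp]
  set v1 := Ex pr f (fun d => if pr.J false d = true then W else []) v with hv1
  have f1 : fr S v1 = f := fr_Ex pr S _ v
  have hc1 : Cmp f v1 := by
    have := cmp_fr S v1
    rw [f1] at this
    exact this
  have e2 : (step pr S)^[p] v1 = adv f p (Ex pr f (Wm pr p) v1) := by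
    rw [step_iter, f1]
  have f2 : fr S ((step pr S)^[p] v1) = f := by
    rw [e2]
    have h1 : fr S (adv f p (Ex pr f (Wm pr p) v1)) = fr S (Ex pr f (Wm pr p) v1) :=
      fr_adv S v _ _
    have h2 := fr_Ex pr S (Wm pr p) v1
    rw [f1] at h2
    rw [h1, h2]
  rw [f2]
  set X : ZMod N → List Knd := fun d => Wm pr p d ++
    ((if pr.J true (d + (p : ZMod N)) = true then W else []) ++ (Wm pr p d).reverse) with hX
  have e4 : Ex pr f (fun d => if pr.J true d = true then W else []) ((step pr S)^[p] v1) =
      (step pr S)^[p] (Ex pr f X v1) := by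
    rw [e2, Ex_adv, Ex_Ex pr hc1, step_iter]
    have f3 : fr S (Ex pr f X v1) = f := by
      have h2 := fr_Ex pr S X v1
      rw [f1] at h2
      exact h2
    rw [f3, Ex_Ex pr hc1]
    congr 1
    apply Ex_congr
    intro d
    rw [hX]
    simp only [run_append]
    have h := run_reverse pr f (Wm pr p d).reverse (run pr f (if pr.J true (d + (p : ZMod N)) = true
      then W else []) (run pr f (Wm pr p d) v1))
    rw [List.reverse_reverse] at h
    rw [h]
  rw [e4, stepI_iter, hv1, Ex_Ex pr hc]
  -- compare classwise
  funext i
  unfold liftF
  rw [← hf]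
  cases hcl : cls f v i with
  | none =>
    rw [Ex_none pr hcl]
  | some d =>
    rw [Ex_some pr hcl]
    simp only
    have hlt : d.val < N := ZMod.val_lt d
    have hNp := hG.hN
    rw [← hp] at hNp
    have hpv : (p : ZMod N).val = p := by
      rw [ZMod.val_natCast, Nat.mod_eq_of_lt (by omega)]
    have hrun : ∀ y, run pr f W y = actL pr (vir f) l y := fun y => by rw [hW]; exact emuL pr f l y
    by_cases hd : p ≤ d.val
    · have j0 : pr.J false d = true := (hG.hJ0 d).mpr hd
      have j1 : ¬ pr.J true (d + (p : ZMod N)) = true := by
        rw [hG.hJ1, ZMod.val_add, hpv, ← hp]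
        by_cases h3 : d.val + p < N
        · rw [Nat.mod_eq_of_lt h3]; omega
        · have : (d.val + p) % N = d.val + p - N := by
            rw [Nat.mod_eq_sub_mod (by omega), Nat.mod_eq_of_lt (by omega)]
          omega
      have hdrop : Pg.drop d.val = [] := List.drop_eq_nil_of_le hd
      simp only [hX]
      rw [if_pos j0, if_neg j1, hdrop, List.nil_append]
      simp only [run_append, List.reverse_nil, run_nil]
      rw [run_reverse, hrun]
    · push Not at hd
      have j0 : ¬ pr.J false d = true := by
        rw [hG.hJ0]; omega
      have j1 : pr.J true (d + (p : ZMod N)) = true := by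
        rw [hG.hJ1, ZMod.val_add, hpv, ← hp, Nat.mod_eq_of_lt (by omega)]
        omega
      have hw : Wm pr p d = Pg.drop d.val := by
        rw [Wm_low hG (by omega)]
        apply List.take_of_length_le
        rw [List.length_drop]
        omega
      simp only [hX]
      rw [if_neg j0, if_pos j1, List.nil_append, hw]
      simp only [run_append]
      rw [hrun]

theorem step_N (hG : Good pr) (S : Sys I) (v : I → V N) :
    (step pr S)^[N] v = liftF pr S (step pr (vir (fr S v))) v := by
  rw [step_iter]
  have h0 : ((N : ℕ) : ZMod N) = 0 := ZMod.natCast_self N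
  rw [h0, adv_zero]
  funext i
  unfold liftF
  cases hcl : cls (fr S v) v i with
  | none => rw [Ex_none pr hcl]
  | some d =>
    rw [Ex_some pr hcl]
    simp only
    rw [Wm_N hG, ← emu_step]
    have h1 : Pg = Pg.take d.val ++ Pg.drop d.val := (List.take_append_drop _ _).symm
    have h2 : run pr (fr S v) Pg (run pr (fr S v) (Pg.drop d.val) v) =
        run pr (fr S v) (Pg.drop d.val) (run pr (fr S v) (Pg.take d.val)
          (run pr (fr S v) (Pg.drop d.val) v)) := by
      conv_lhs => rw [h1]
      rw [run_append]
      rw [← h1]
    rw [h2, run_reverse, run_append]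

end Pool.Agent.J6H71.Dist
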