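import Pool.Agent.J6H71.Dist.F

/-!
Naturality, composition of lifts, and short words for the powers of the step.
-/

set_option autoImplicit false

namespace Pool.Agent.J6H71.Dist

variable {N : ℕ} {I I' : Type} (pr : Par N)

/-- embeddings of systems -/
structure Emb (g : I' → I) (S' : Sys I') (S : Sys I) : Prop where
  al : ∀ i, S.al (g i) = S'.al i
  p : ∀ i, S.p (g i) = S'.p i
  t : ∀ i, S.t (g i) = S'.t i
  nx : ∀ i, S.nx (g i) = (S'.nx i).map g

/-- embeddings of frames -/
structure EmbF (g : I' → I) (f' : Fr I') (f : Fr I) : Prop where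
  oc : ∀ i, f.oc (g i) = f'.oc i
  t : ∀ i, f.t (g i) = f'.t i
  dr : ∀ i, f.dr (g i) = (f'.dr i).map g
  lk : ∀ i, f.lk (g i) = (f'.lk i).map g

theorem Emb.fr {g : I' → I} {S' : Sys I'} {S : Sys I} (h : Emb g S' S) (v : I → V N) :
    EmbF g (fr S' (fun i => v (g i))) (fr S v) := by
  refine ⟨?_, h.t, ?_, ?_⟩
  · intro i
    show (S.al (g i) && S.p (g i)) = (S'.al i && S'.p i)
    rw [h.al, h.p]
  · intro i
    show drf S (g i) = (drf S' i).map g
    unfold drf
    rw [h.p, h.nx]
    split_ifs <;> rfl
  · intro i
    show lkf S v (g i) = (lkf S' (fun i => v (g i)) i).map g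
    unfold lkf
    rw [h.p, h.nx]
    by_cases hp : S'.p i = true
    · rw [if_pos hp, if_pos hp]
      cases h1 : S'.nx i with
      | none => rfl
      | some e =>
        simp only [Option.map_some, Option.bind_some]
        rw [h.nx]
        cases h2 : S'.nx e with
        | none => rfl
        | some o =>
          simp only [Option.map_some, Option.bind_some]
          rw [h.t, h.t]
          split_ifs <;> rfl
    · rw [if_neg hp, if_neg hp]
      rfl

theorem act_nat {g : I' → I} {f' : Fr I'} {f : Fr I} (h : EmbF g f' f) (κ : Knd) (v : I → V N)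
    (i : I') : act pr f κ v (g i) = act pr f' κ (fun i => v (g i)) i := by
  cases κ with
  | O a Y =>
    rw [act_O, act_O]
    unfold oAd
    rw [h.oc, h.t]
    have : vw f v (g i) = vw f' (fun i => v (g i)) i := by
      unfold vw
      rw [h.lk]
      cases f'.lk i with
      | none => rfl
      | some e => simp only [Option.map_some, h.t]
    beta_reduce
    rw [this]
  | E b Y =>
    rw [act_E, act_E]
    unfold eAp
    rw [h.dr, h.t]
    cases f'.dr i with
    | none => rfl
    | some o => simp only [Option.map_some, h.t]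

theorem run_nat {g : I' → I} {f' : Fr I'} {f : Fr I} (h : EmbF g f' f) (w : List Knd)
    (v : I → V N) (i : I') : run pr f w v (g i) = run pr f' w (fun i => v (g i)) i := by
  induction w generalizing v with
  | nil => rfl
  | cons κ w ih =>
    rw [run_cons, run_cons, ih]
    congr 1
    funext j
    exact act_nat pr h κ v j

theorem cls_nat {g : I' → I} {f' : Fr I'} {f : Fr I} (h : EmbF g f' f)
    (v : I → V N) (i : I') : cls f v (g i) = cls f' (fun i => v (g i)) i := by
  unfold cls
  rw [h.oc, h.dr]
  cases f'.dr i with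
  | none => rfl
  | some o => rfl

theorem Ex_nat {g : I' → I} {f' : Fr I'} {f : Fr I} (h : EmbF g f' f) (W : ZMod N → List Knd)
    (v : I → V N) (i : I') : Ex pr f W v (g i) = Ex pr f' W (fun i => v (g i)) i := by
  unfold Ex
  rw [cls_nat h]
  cases cls f' (fun i => v (g i)) i with
  | none => rfl
  | some d => exact run_nat pr h _ _ _

theorem adv_nat {g : I' → I} {f' : Fr I'} {f : Fr I} (h : EmbF g f' f) (k : ZMod N)
    (v : I → V N) (i : I') : adv f k v (g i) = adv f' k (fun i => v (g i)) i := by
  unfold adv
  rw [h.oc]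

theorem step_nat {g : I' → I} {S' : Sys I'} {S : Sys I} (h : Emb g S' S) (v : I → V N) (i : I') :
    step pr S v (g i) = step pr S' (fun i => v (g i)) i := by
  unfold step
  rw [adv_nat (h.fr v)]
  congr 1
  funext j
  exact Ex_nat pr (h.fr v) _ _ _

theorem stepI_nat {g : I' → I} {S' : Sys I'} {S : Sys I} (h : Emb g S' S) (v : I → V N) (i : I') :
    stepI pr S v (g i) = stepI pr S' (fun i => v (g i)) i := by
  unfold stepI
  rw [Ex_nat pr (h.fr v)]
  congr 1
  funext j
  exact adv_nat (h.fr v) _ _ _

theorem actL_nat {g : I' → I} {S' : Sys I'} {S : Sys I} (h : Emb g S' S) (l : Lt) (v : I → V N)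
    (i : I') : actL pr S l v (g i) = actL pr S' l (fun i => v (g i)) i := by
  cases l with
  | F => exact step_nat pr h v i
  | Fi => exact stepI_nat pr h v i
  | k κ j => exact Ex_nat pr (h.fr v) _ _ _

theorem runL_nat {g : I' → I} {S' : Sys I'} {S : Sys I} (h : Emb g S' S) (w : List Lt)
    (v : I → V N) (i : I') : runL pr S w v (g i) = runL pr S' w (fun i => v (g i)) i := by
  induction w generalizing v with
  | nil => rfl
  | cons l w ih =>
    rw [runL_cons, runL_cons, ih]
    congr 1
    funext j
    exact actL_nat pr h l v j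

theorem actL_dead {S : Sys I} {i : I} (hi : S.al i = false) (l : Lt) (v : I → V N) :
    actL pr S l v i = v i := by
  have h1 : ∀ u : I → V N, (fr S u).oc i = false := by
    intro u
    show (S.al i && S.p i) = false
    rw [hi]; rfl
  have h2 : ∀ u : I → V N, (fr S u).dr i = none := by
    intro u
    show drf S i = none
    unfold drf
    split_ifs
    · cases h3 : S.nx i with
      | none => rfl
      | some j =>
        have := (S.hn i j h3).1
        rw [hi] at this
        exact absurd this (by simp)
    · rfl
  cases l with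
  | F =>
    show step pr S v i = v i
    unfold step
    rw [adv_ne (h1 v), Ex_none pr (cls_none (h1 v) (h2 v))]
  | Fi =>
    show stepI pr S v i = v i
    unfold stepI
    rw [Ex_none pr (cls_none (h1 v) (h2 v)), adv_ne (h1 v)]
  | k κ j =>
    exact Ex_none pr (cls_none (h1 v) (h2 v))

theorem runL_dead {S : Sys I} {i : I} (hi : S.al i = false) (w : List Lt) (v : I → V N) :
    runL pr S w v i = v i := by
  induction w generalizing v with
  | nil => rfl
  | cons l w ih => rw [runL_cons, ih, actL_dead pr hi]

/-- the restriction of a system to a closed set -/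
def rst (S : Sys I) (C : Set I) (hC : ∀ i ∈ C, ∀ j, S.nx i = some j → j ∈ C) : Sys C where
  al i := S.al i
  p i := S.p i
  t i := S.t i
  nx i := (S.nx i).pmap (fun j hj => ⟨j, hj⟩) (fun j hj => hC i i.2 j hj)
  hn := by
    intro i j h
    rw [Option.pmap_eq_some_iff] at h
    obtain ⟨j', h1, h2, rfl⟩ := h
    exact S.hn i j' h2

theorem rst_emb (S : Sys I) (C : Set I) (hC : ∀ i ∈ C, ∀ j, S.nx i = some j → j ∈ C) :
    Emb (fun i : C => (i : I)) (rst S C hC) S := by
  refine ⟨fun _ => rfl, fun _ => rfl, fun _ => rfl, ?_⟩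
  intro i
  show S.nx i = ((S.nx i).pmap _ _).map _
  rw [Option.map_pmap]
  simp

theorem runL_loc (S : Sys I) (C : Set I) (hC : ∀ i ∈ C, ∀ j, S.nx i = some j → j ∈ C)
    {y y' : I → V N} (h : ∀ i ∈ C, y i = y' i) (w : List Lt) :
    ∀ i ∈ C, runL pr S w y i = runL pr S w y' i := by
  intro i hi
  have h1 := runL_nat pr (rst_emb S C hC) w y ⟨i, hi⟩
  have h2 := runL_nat pr (rst_emb S C hC) w y' ⟨i, hi⟩
  simp only at h1 h2
  rw [h1, h2]
  congr 1
  funext j
  exact h j j.2

theorem vir_dead {f : Fr I} {i : I} (h : f.dr i = none) : (vir f).al i = false := by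
  show (f.dr i).isSome = false
  rw [h]; rfl

theorem runL_ag {f : Fr I} {v : I → V N} (hc : Cmp f v) {d : ZMod N} {y y' : I → V N}
    (h : Ag f v d y y') (w : List Lt) :
    Ag f v d (runL pr (vir f) w y) (runL pr (vir f) w y') := by
  intro i hi
  cases h2 : f.dr i with
  | none => rw [runL_dead pr (vir_dead h2), runL_dead pr (vir_dead h2), h i hi]
  | some o =>
    apply runL_loc pr (vir f) {i | ∃ o, f.dr i = some o ∧ (v o).d = d}
    · rintro j ⟨o', h3, h4⟩ j' h5
      have h6 : (f.dr j).bind f.lk = some j' := h5
      rw [h3] at h6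
      have h7 : f.lk o' = some j' := h6
      obtain ⟨-, o'', h8, -⟩ := f.h2 o' j' h7
      refine ⟨o'', h8, ?_⟩
      rw [← hc o' j' o'' h7 h8, h4]
    · rintro j ⟨o', h3, h4⟩
      apply h
      rw [cls_dr h3, h4]
    · refine ⟨o, h2, ?_⟩
      rw [cls_dr h2] at hi
      exact Option.some.inj hi

theorem liftF_od (S : Sys I) (w : List Lt) (v : I → V N) :
    Od (fr S v) v (liftF pr S (runL pr (vir (fr S v)) w) v) := by
  intro i hi
  have hcl := cls_oc (v := v) hi
  unfold liftF
  rw [hcl]
  simp only
  rw [← run_od pr _ _ _ i hi, runL_dead pr (vir_dead (dr_none hi)), ← run_od pr _ _ _ i hi]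

theorem liftF_comp (S : Sys I) (w w' : List Lt) (v : I → V N) :
    liftF pr S (runL pr (vir (fr S v)) w') (liftF pr S (runL pr (vir (fr S v)) w) v) =
      liftF pr S (runL pr (vir (fr S v)) (w ++ w')) v := by
  set f := fr S v with hf
  have hod := liftF_od pr S w v
  rw [← hf] at hod
  set y := liftF pr S (runL pr (vir f) w) v with hy
  have hfy : fr S y = f := (fr_od hod).symm
  have hc : Cmp f v := cmp_fr S v
  funext i
  have hcl : cls (fr S y) y i = cls f v i := by
    rw [hfy]; exact (cls_congr hod i).symm
  cases h : cls f v i with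
  | none =>
    have e1 : liftF pr S (runL pr (vir f) w') y i = y i := by
      unfold liftF; rw [hcl, h]
    have e2 : y i = v i := by
      rw [hy]; unfold liftF; rw [← hf, h]
    have e3 : liftF pr S (runL pr (vir f) (w ++ w')) v i = v i := by
      unfold liftF; rw [← hf, h]
    rw [e1, e2, e3]
  | some d =>
    have e1 : liftF pr S (runL pr (vir f) w') y i =
        run pr f (Pg.drop d.val).reverse (runL pr (vir f) w' (run pr f (Pg.drop d.val) y)) i := by
      unfold liftF; rw [hcl, h, hfy]
    have e3 : liftF pr S (runL pr (vir f) (w ++ w')) v i =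
        run pr f (Pg.drop d.val).reverse (runL pr (vir f) (w ++ w')
          (run pr f (Pg.drop d.val) v)) i := by
      unfold liftF; rw [← hf, h]
    rw [e1, e3, runL_append]
    have a1 : Ag f v d y (run pr f (Pg.drop d.val).reverse (runL pr (vir f) w
        (run pr f (Pg.drop d.val) v))) := by
      intro j hj
      rw [hy]; unfold liftF; rw [← hf, hj]
    have a2 := run_ag pr hc a1 (Pg.drop d.val)
    have h4 := run_reverse pr f (Pg.drop d.val).reverse (runL pr (vir f) w
      (run pr f (Pg.drop d.val) v))
    rw [List.reverse_reverse] at h4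
    rw [h4] at a2
    have a3 := runL_ag pr hc a2 w'
    exact run_ag pr hc a3 (Pg.drop d.val).reverse i h

variable {pr}

theorem runL_flatMap (hG : Good pr) (S : Sys I) (w : List Lt) (v : I → V N) :
    runL pr S (w.flatMap PhiL) v = liftF pr S (runL pr (vir (fr S v)) w) v := by
  induction w generalizing v with
  | nil =>
    show v = _
    funext i
    unfold liftF
    cases h : cls (fr S v) v i with
    | none => rfl
    | some d =>
      simp only
      rw [runL_nil, run_reverse]
  | cons l w ih =>
    rw [List.flatMap_cons, runL_append, ih, runL_PhiL hG]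
    have h1 : actL pr (vir (fr S v)) l = runL pr (vir (fr S v)) [l] := rfl
    rw [h1]
    have hod := liftF_od pr S [l] v
    have hfy : fr S (liftF pr S (runL pr (vir (fr S v)) [l]) v) = fr S v := (fr_od hod).symm
    rw [hfy, liftF_comp]
    rfl

/-- short words for the powers `N ^ k` -/
noncomputable def wk : ℕ → List Lt
  | 0 => [Lt.F]
  | k + 1 => (wk k).flatMap PhiL

theorem runL_rep (hG : Good pr) (S : Sys I) (m : ℕ) (v : I → V N) :
    runL pr S ((List.replicate m Lt.F).flatMap PhiL) v = (step pr S)^[N * m] v := by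
  induction m generalizing v with
  | zero => rfl
  | succ m ih =>
    rw [List.replicate_succ, List.flatMap_cons, runL_append, ih, runL_PhiL hG]
    have h : liftF pr S (actL pr (vir (fr S v)) Lt.F) v = (step pr S)^[N] v := (step_N hG S v).symm
    rw [h, ← Function.iterate_add_apply, Nat.mul_succ]

theorem runL_wk (hG : Good pr) (k : ℕ) (S : Sys I) (v : I → V N) :
    runL pr S (wk k) v = (step pr S)^[N ^ k] v := by
  induction k generalizing S v with
  | zero =>
    rfl
  | succ k ih =>
    show runL pr S ((wk k).flatMap PhiL) v = _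
    rw [runL_flatMap hG]
    have h1 : runL pr (vir (fr S v)) (wk k) =
        runL pr (vir (fr S v)) (List.replicate (N ^ k) Lt.F) := by
      funext u
      rw [ih, runL_F]
    rw [h1, ← runL_flatMap hG, runL_rep hG, pow_succ']

/-- one bound for the lengths of the substituted letters -/
theorem exists_bound : ∃ L : ℕ, ∀ l, (PhiL l).length ≤ L := by
  obtain ⟨L, hL⟩ := (Set.finite_range (fun l : Lt => (PhiL l).length)).bddAbove
  exact ⟨L, fun l => hL ⟨l, rfl⟩⟩

theorem wk_length {L : ℕ} (hL : ∀ l, (PhiL l).length ≤ L) (k : ℕ) : (wk k).length ≤ L ^ k := by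
  have h : ∀ w : List Lt, (w.flatMap PhiL).length ≤ w.length * L := by
    intro w
    induction w with
    | nil => simp
    | cons l w ih =>
      rw [List.flatMap_cons, List.length_append, List.length_cons, add_mul, one_mul]
      have := hL l
      omega
  induction k with
  | zero => simp [wk]
  | succ k ih =>
    calc (wk (k + 1)).length ≤ (wk k).length * L := h _
      _ ≤ L ^ k * L := Nat.mul_le_mul_right _ ih
      _ = L ^ (k + 1) := (pow_succ _ _).symm

end Pool.Agent.J6H71.Dist
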