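import Pool.Agent.J6H71.Dist.G

/-!
The full shift.
-/

set_option autoImplicit false

namespace Pool.Agent.J6H71.Dist

variable {N : ℕ} (pr : Par N)

/-- the system of a point of the full shift -/
def base (a p t : ℕ → Bool) : Sys ℕ where
  al := a
  p := p
  t := t
  nx i := if a i = true ∧ a (i + 1) = true ∧ p (i + 1) = !(p i) then some (i + 1) else none
  hn := by
    intro i j h
    split_ifs at h with h1
    have h2 := Option.some.inj h
    subst h2
    exact h1

theorem base_nx_pos {a p t : ℕ → Bool} {i : ℕ}
    (h : a i = true ∧ a (i + 1) = true ∧ p (i + 1) = !(p i)) :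
    (base a p t).nx i = some (i + 1) := if_pos h

theorem base_nx_neg {a p t : ℕ → Bool} {i : ℕ}
    (h : ¬ (a i = true ∧ a (i + 1) = true ∧ p (i + 1) = !(p i))) :
    (base a p t).nx i = none := if_neg h

theorem base_nx_eq {a p t : ℕ → Bool} {i j : ℕ} (h : (base a p t).nx i = some j) : j = i + 1 := by
  by_cases h1 : a i = true ∧ a (i + 1) = true ∧ p (i + 1) = !(p i)
  · rw [base_nx_pos h1] at h
    exact (Option.some.inj h).symm
  · rw [base_nx_neg h1] at h
    exact absurd h (by simp)

theorem vir_p_some {I : Type} {f : Fr I} {i o : I} (h : f.dr i = some o) :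
    (vir f).p i = f.t o := by
  simp only [vir, h]

section Inflate

/-- inflated parity -/
def ifp (i : ℕ) : Bool := decide (i % 2 = 1)
/-- inflated type -/
def ift (p t : ℕ → Bool) (i : ℕ) : Bool := if i % 2 = 1 then p (i / 2) else t (i / 2)
/-- inflated contents -/
def ifv (v0 : V N) (v : ℕ → V N) (i : ℕ) : V N := if i % 2 = 1 then v0 else v (i / 2)

theorem ifp_even (i : ℕ) : ifp (2 * i) = false := by
  unfold ifp; simp
theorem ifp_odd (i : ℕ) : ifp (2 * i + 1) = true := by
  unfold ifp
  have : (2 * i + 1) % 2 = 1 := by omega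
  simp [this]
theorem ift_even (p t : ℕ → Bool) (i : ℕ) : ift p t (2 * i) = t i := by
  unfold ift
  have h1 : ¬ (2 * i) % 2 = 1 := by omega
  have h2 : (2 * i) / 2 = i := by omega
  rw [if_neg h1, h2]
theorem ift_odd (p t : ℕ → Bool) (i : ℕ) : ift p t (2 * i + 1) = p i := by
  unfold ift
  have h1 : (2 * i + 1) % 2 = 1 := by omega
  have h2 : (2 * i + 1) / 2 = i := by omega
  rw [if_pos h1, h2]
theorem ifv_even (v0 : V N) (v : ℕ → V N) (i : ℕ) : ifv v0 v (2 * i) = v i := by
  unfold ifv
  have h1 : ¬ (2 * i) % 2 = 1 := by omega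
  have h2 : (2 * i) / 2 = i := by omega
  rw [if_neg h1, h2]
theorem ifv_odd (v0 : V N) (v : ℕ → V N) (i : ℕ) : ifv v0 v (2 * i + 1) = v0 := by
  unfold ifv
  have h1 : (2 * i + 1) % 2 = 1 := by omega
  rw [if_pos h1]

theorem inflate_emb (p t : ℕ → Bool) (v0 : V N) (v : ℕ → V N) :
    Emb (fun i => 2 * i) (base (fun _ => true) p t)
      (vir (fr (base (fun _ => true) ifp (ift p t)) (ifv v0 v))) := by
  set S := base (fun _ => true) ifp (ift p t) with hS
  have hnx0 : ∀ i, S.nx (2 * i) = some (2 * i + 1) := fun i => by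
    rw [hS]; apply base_nx_pos
    refine ⟨rfl, rfl, ?_⟩
    rw [ifp_even, ifp_odd]; rfl
  have hnx1 : ∀ i, S.nx (2 * i + 1) = some (2 * (i + 1)) := fun i => by
    rw [hS]
    have : 2 * (i + 1) = 2 * i + 1 + 1 := by ring
    rw [this]
    apply base_nx_pos
    refine ⟨rfl, rfl, ?_⟩
    rw [← this, ifp_even, ifp_odd]; rfl
  have hdr : ∀ i, (fr S (ifv v0 v)).dr (2 * i) = some (2 * i + 1) := fun i => by
    show drf S (2 * i) = _
    unfold drf
    have : S.p (2 * i) = false := ifp_even i
    rw [if_pos this, hnx0]
  refine ⟨?_, ?_, ?_, ?_⟩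
  · intro i
    show ((fr S (ifv v0 v)).dr (2 * i)).isSome = true
    rw [hdr]; rfl
  · intro i
    rw [vir_p_some (hdr i)]
    exact ift_odd p t i
  · intro i
    exact ift_even p t i
  · intro i
    show ((fr S (ifv v0 v)).dr (2 * i)).bind (fr S (ifv v0 v)).lk = _
    rw [hdr]
    show lkf S (ifv v0 v) (2 * i + 1) = _
    by_cases h : p (i + 1) = !(p i)
    · rw [base_nx_pos (a := fun _ => true) ⟨rfl, rfl, h⟩]
      show _ = some (2 * (i + 1))
      apply lkf_of (o := 2 * (i + 1) + 1)
      · exact ifp_odd i
      · exact hnx1 i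
      · exact hnx0 (i + 1)
      · rw [ifv_odd, ifv_odd]
      · show ift p t (2 * (i + 1) + 1) = !(ift p t (2 * i + 1))
        rw [ift_odd, ift_odd, h]
    · rw [base_nx_neg (a := fun _ => true) (fun h' => h h'.2.2)]
      show _ = none
      cases h2 : lkf S (ifv v0 v) (2 * i + 1) with
      | none => rfl
      | some e =>
        exfalso
        obtain ⟨-, h3, o, h4, -, h5⟩ := lkf_some h2
        rw [hnx1] at h3
        have h6 := Option.some.inj h3
        subst h6
        rw [hnx0] at h4
        have h7 := Option.some.inj h4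
        subst h7
        apply h
        have h8 : ift p t (2 * (i + 1) + 1) = !(ift p t (2 * i + 1)) := h5
        rw [ift_odd, ift_odd] at h8
        exact h8

variable {pr}

theorem step_od (S : Sys ℕ) (m : ℕ) (v : ℕ → V N) (i : ℕ) (hi : S.al i = true)
    (hp : S.p i = true) : ((step pr S)^[m] v i).d = (v i).d + m := by
  have hoc : (fr S v).oc i = true := by
    show (S.al i && S.p i) = true
    rw [hi, hp]; rfl
  rw [step_iter, adv_oc hoc]
  show (Ex pr (fr S v) (Wm pr m) v i).d + _ = _
  rw [← Ex_od pr (fr S v) (Wm pr m) v i hoc]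

theorem nontrivial_iter (hG : Good pr) (m : ℕ) (hm : 0 < m) :
    ∃ (p t : ℕ → Bool) (v : ℕ → V N), (step pr (base (fun _ => true) p t))^[m] v ≠ v := by
  have hN : NeZero N := ⟨by have := hG.hN; omega⟩
  induction m using Nat.strong_induction_on with
  | _ m ih =>
    by_cases hd : N ∣ m
    · obtain ⟨m', rfl⟩ := hd
      have hm' : 0 < m' := Nat.pos_of_mul_pos_left hm
      have hN2 : 2 ≤ N ∨ N = 1 := by
        have := hN.out
        omega
      rcases hN2 with hN2 | hN1
      · obtain ⟨p, t, v, hv⟩ := ih m' (by nlinarith) hm'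
        -- an idle digit
        let v0 : V N := { d := (Pg.length : ZMod N), Z := 0, B := 0, R := 0 }
        refine ⟨ifp, ift p t, ifv v0 v, fun heq => hv ?_⟩
        funext i
        have h1 := congrFun heq (2 * i)
        rw [← runL_rep hG, runL_flatMap hG] at h1
        set S := base (fun _ => true) ifp (ift p t) with hS
        have hdr : (fr S (ifv v0 v)).dr (2 * i) = some (2 * i + 1) := by
          show drf S (2 * i) = _
          unfold drf
          have h2 : S.p (2 * i) = false := ifp_even i
          rw [if_pos h2, hS]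
          apply base_nx_pos
          refine ⟨rfl, rfl, ?_⟩
          rw [ifp_even, ifp_odd]; rfl
        have hcl : cls (fr S (ifv v0 v)) (ifv v0 v) (2 * i) = some (Pg.length : ZMod N) := by
          rw [cls_dr hdr, ifv_odd]
        unfold liftF at h1
        rw [hcl] at h1
        have hval : ((Pg.length : ℕ) : ZMod N).val = Pg.length := by
          rw [ZMod.val_natCast, Nat.mod_eq_of_lt]
          have := hG.hN
          omega
        simp only [hval, List.drop_length, List.reverse_nil, run_nil] at h1
        rw [ifv_even, runL_nat pr (inflate_emb p t v0 v)] at h1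
        have h3 : (fun i => ifv v0 v (2 * i)) = v := by
          funext j; exact ifv_even v0 v j
        rw [h3, runL_F] at h1
        exact h1
      · exfalso
        have := hG.hN
        have h0 : Pg.length = 0 := by omega
        have h1 : Pg ≠ [] := by
          unfold Pg rfw cmw
          simp
        exact h1 (List.length_eq_zero_iff.mp h0)
    · refine ⟨fun _ => true, fun _ => true, fun _ => { d := 0, Z := 0, B := 0, R := 0 },
        fun heq => hd ?_⟩
      have h1 := congrFun heq 0
      have h2 := step_od (pr := pr) (base (fun _ => true) (fun _ => true) (fun _ => true)) m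
        (fun _ => { d := 0, Z := 0, B := 0, R := 0 }) 0 rfl rfl
      rw [h1] at h2
      simp only [zero_add] at h2
      exact (ZMod.natCast_eq_zero_iff m N).mp h2.symm

end Inflate

end Pool.Agent.J6H71.Dist
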