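import Pool.Agent.J6H71.Dist.H

/-!
The letters as automorphisms of the full shift over any large alphabet.
-/

set_option autoImplicit false

namespace Pool.Agent.J6H71.Dist

variable {N : ℕ} (pr : Par N)

section Local

/-- two configurations look the same from the cell `i` -/
structure Same (f f' : Fr ℕ) (v v' : ℕ → V N) (i : ℕ) : Prop where
  oc : f.oc i = f'.oc i
  t : f.t i = f'.t i
  dr : f.dr i = f'.dr i
  lk : f.lk i = f'.lk i
  vi : v i = v' i
  nb : ∀ j, f.dr i = some j ∨ f.lk i = some j → f.oc j = f'.oc j ∧ f.t j = f'.t j ∧ v j = v' j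

variable {f f' : Fr ℕ} {v v' : ℕ → V N} {i : ℕ}

theorem Same.act (h : Same f f' v v' i) (κ : Knd) : act pr f κ v i = act pr f' κ v' i := by
  cases κ with
  | O a Y =>
    rw [act_O, act_O]
    unfold oAd
    have h1 : vw f v i = vw f' v' i := by
      unfold vw
      rw [← h.lk]
      cases h2 : f.lk i with
      | none => rfl
      | some j =>
        obtain ⟨-, h3, h4⟩ := h.nb j (Or.inr h2)
        simp only [Option.map_some, h3, h4]
    beta_reduce
    rw [h1, ← h.oc, ← h.t, ← h.vi]
  | E b Y =>
    rw [act_E, act_E]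
    unfold eAp
    rw [← h.dr]
    cases h2 : f.dr i with
    | none => exact h.vi
    | some j =>
      obtain ⟨-, h3, h4⟩ := h.nb j (Or.inl h2)
      simp only
      rw [h3, h4, h.vi, h.t]

theorem Same.cls (h : Same f f' v v' i) : cls f v i = cls f' v' i := by
  unfold Dist.cls
  rw [← h.oc, ← h.dr, ← h.vi]
  cases h2 : f.dr i with
  | none => rfl
  | some j =>
    obtain ⟨-, -, h4⟩ := h.nb j (Or.inl h2)
    simp only [Option.map_some, h4]

theorem Same.Ex (h : Same f f' v v' i) {W : ZMod N → List Knd} (hW : ∀ d, (W d).length ≤ 1) :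
    Ex pr f W v i = Ex pr f' W v' i := by
  unfold Dist.Ex
  rw [← h.cls]
  cases Dist.cls f v i with
  | none => exact h.vi
  | some d =>
    simp only
    have h1 := hW d
    cases h2 : W d with
    | nil => exact h.vi
    | cons κ w =>
      rw [h2] at h1
      have h3 : w = [] := by
        cases w with
        | nil => rfl
        | cons a b => simp at h1
      subst h3
      rw [run_cons, run_nil, run_cons, run_nil]
      exact h.act pr κ

theorem Same.adv (h : Same f f' v v' i) (k : ZMod N) :
    Same f f' (adv f k v) (adv f' k v') i := by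
  refine ⟨h.oc, h.t, h.dr, h.lk, ?_, ?_⟩
  · unfold Dist.adv
    rw [h.oc, h.vi]
  · intro j hj
    obtain ⟨h1, h2, h3⟩ := h.nb j hj
    refine ⟨h1, h2, ?_⟩
    unfold Dist.adv
    rw [h1, h3]

theorem sgW_length (d : ZMod N) : (sgW pr d).length ≤ 1 := by
  unfold sgW
  cases pr.sg d <;> simp

theorem Same.actL {S S' : Sys ℕ} (h : Same (fr S v) (fr S' v') v v' i) (l : Lt) :
    actL pr S l v i = actL pr S' l v' i := by
  cases l with
  | F =>
    show step pr S v i = step pr S' v' i
    unfold step
    have h1 := h.Ex pr (sgW_length pr)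
    unfold Dist.adv
    rw [h1, h.oc]
  | Fi =>
    show stepI pr S v i = stepI pr S' v' i
    unfold stepI
    exact (h.adv (-1)).Ex pr (sgW_length pr)
  | k κ j =>
    apply h.Ex
    intro d
    split_ifs <;> simp

theorem base_same {a p t a' p' t' : ℕ → Bool} (h0 : ∀ j, i ≤ j → j ≤ i + 2 →
    a j = a' j ∧ p j = p' j ∧ t j = t' j ∧ v j = v' j) :
    Same (fr (base a p t) v) (fr (base a' p' t') v') v v' i := by
  obtain ⟨a0, p0, t0, v0⟩ := h0 i le_rfl (by omega)
  obtain ⟨a1, p1, t1, v1⟩ := h0 (i + 1) (by omega) (by omega)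
  obtain ⟨a2, p2, t2, v2⟩ := h0 (i + 1 + 1) (by omega) (by omega)
  have hn0 : (base a p t).nx i = (base a' p' t').nx i := by
    show (if _ then _ else _) = (if _ then _ else _)
    rw [a0, p0, a1, p1]
  have hn1 : (base a p t).nx (i + 1) = (base a' p' t').nx (i + 1) := by
    show (if _ then _ else _) = (if _ then _ else _)
    rw [a1, p1, a2, p2]
  have hdr : (fr (base a p t) v).dr i = (fr (base a' p' t') v').dr i := by
    show drf _ i = drf _ i
    unfold drf
    rw [hn0]
    show (if p i = false then _ else _) = (if p' i = false then _ else _)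
    rw [p0]
  have hlk : (fr (base a p t) v).lk i = (fr (base a' p' t') v').lk i := by
    show lkf _ v i = lkf _ v' i
    unfold lkf
    rw [hn0]
    show (if p i = true then _ else _) = (if p' i = true then _ else _)
    rw [p0]
    by_cases hp : p' i = true
    · rw [if_pos hp, if_pos hp]
      cases h1 : (base a' p' t').nx i with
      | none => rfl
      | some j =>
        have h2 := base_nx_eq h1
        subst h2
        simp only [Option.bind_some]
        rw [hn1]
        cases h3 : (base a' p' t').nx (i + 1) with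
        | none => rfl
        | some j' =>
          have h4 := base_nx_eq h3
          subst h4
          simp only [Option.bind_some]
          have s0 : (base a p t).t i = (base a' p' t').t i := t0
          have s2 : (base a p t).t (i + 1 + 1) = (base a' p' t').t (i + 1 + 1) := t2
          rw [v0, v2, s0, s2]
    · rw [if_neg hp, if_neg hp]
  refine ⟨?_, t0, hdr, hlk, v0, ?_⟩
  · show (a i && p i) = (a' i && p' i)
    rw [a0, p0]
  · intro j hj
    have hj1 : j = i + 1 := by
      rcases hj with hj | hj
      · have h1 : drf (base a p t) i = some j := hj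
        unfold drf at h1
        split_ifs at h1
        exact base_nx_eq h1
      · obtain ⟨-, h1, -⟩ := lkf_some (S := base a p t) (v := v) hj
        exact base_nx_eq h1
    subst hj1
    refine ⟨?_, t1, v1⟩
    show (a (i + 1) && p (i + 1)) = (a' (i + 1) && p' (i + 1))
    rw [a1, p1]

end Local

section Full

/-- the symbols used -/
abbrev A0 (N : ℕ) := Bool × Bool × V N

variable {A : Type} (e : A0 N → A) (dec : A → Option (A0 N))

def v00 : V N := { d := 0, Z := 0, B := 0, R := 0 }

def xa (x : ℕ → A) (i : ℕ) : Bool := (dec (x i)).isSome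
def xp (x : ℕ → A) (i : ℕ) : Bool := ((dec (x i)).map fun q => q.1).getD false
def xt (x : ℕ → A) (i : ℕ) : Bool := ((dec (x i)).map fun q => q.2.1).getD false
def xv (x : ℕ → A) (i : ℕ) : V N := ((dec (x i)).map fun q => q.2.2).getD v00
def Sx (x : ℕ → A) : Sys ℕ := base (xa dec x) (xp dec x) (xt dec x)

/-- the action of a word on the full shift -/
noncomputable def T (w : List Lt) (x : ℕ → A) : ℕ → A := fun i =>
  match dec (x i) with
  | some q => e (q.1, q.2.1, runL pr (Sx dec x) w (xv dec x) i)
  | none => x i

variable {e dec}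

theorem T_some {w : List Lt} {x : ℕ → A} {i : ℕ} {q : A0 N} (h : dec (x i) = some q) :
    T pr e dec w x i = e (q.1, q.2.1, runL pr (Sx dec x) w (xv dec x) i) := by
  unfold T
  rw [h]

theorem T_none {w : List Lt} {x : ℕ → A} {i : ℕ} (h : dec (x i) = none) :
    T pr e dec w x i = x i := by
  unfold T
  rw [h]

section Enc

variable (hde : ∀ q, dec (e q) = some q) (hed : ∀ a q, dec a = some q → e q = a)

include hde

theorem xa_T (w : List Lt) (x : ℕ → A) : xa dec (T pr e dec w x) = xa dec x := by
  funext i
  unfold xa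
  cases h : dec (x i) with
  | none => rw [T_none pr h, h]
  | some q => rw [T_some pr h, hde]; rfl

theorem xp_T (w : List Lt) (x : ℕ → A) : xp dec (T pr e dec w x) = xp dec x := by
  funext i
  unfold xp
  cases h : dec (x i) with
  | none => rw [T_none pr h, h]
  | some q => rw [T_some pr h, hde]; rfl

theorem xt_T (w : List Lt) (x : ℕ → A) : xt dec (T pr e dec w x) = xt dec x := by
  funext i
  unfold xt
  cases h : dec (x i) with
  | none => rw [T_none pr h, h]
  | some q => rw [T_some pr h, hde]; rfl

theorem xv_T (w : List Lt) (x : ℕ → A) :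
    xv dec (T pr e dec w x) = runL pr (Sx dec x) w (xv dec x) := by
  funext i
  cases h : dec (x i) with
  | none =>
    have h1 : (Sx dec x).al i = false := by
      show xa dec x i = false
      unfold xa
      rw [h]; rfl
    rw [runL_dead pr h1]
    unfold xv
    rw [T_none pr h]
  | some q =>
    unfold xv
    rw [T_some pr h, hde]
    rfl

theorem Sx_T (w : List Lt) (x : ℕ → A) : Sx dec (T pr e dec w x) = Sx dec x := by
  unfold Sx
  rw [xa_T pr hde, xp_T pr hde, xt_T pr hde]

theorem T_append (w w' : List Lt) (x : ℕ → A) :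
    T pr e dec (w ++ w') x = T pr e dec w' (T pr e dec w x) := by
  funext i
  cases h : dec (x i) with
  | none =>
    have h2 : dec (T pr e dec w x i) = none := by rw [T_none pr h, h]
    rw [T_none pr h, T_none pr h2, T_none pr h]
  | some q =>
    have h2 : dec (T pr e dec w x i) = some (q.1, q.2.1, runL pr (Sx dec x) w (xv dec x) i) := by
      rw [T_some pr h, hde]
    rw [T_some pr h, T_some pr h2, Sx_T pr hde, xv_T pr hde, runL_append]

omit hde in
include hed in
theorem T_of_id {w : List Lt} {x : ℕ → A}
    (hw : runL pr (Sx dec x) w (xv dec x) = xv dec x) : T pr e dec w x = x := by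
  funext i
  cases h : dec (x i) with
  | none => rw [T_none pr h]
  | some q =>
    rw [T_some pr h, hw]
    apply hed
    rw [h]
    unfold xv
    rw [h]
    rfl

end Enc

/-- inverse letters -/
def inv : Lt → Lt
  | .F => .Fi
  | .Fi => .F
  | .k κ j => .k κ j

theorem runL_inv {I : Type} (S : Sys I) (l : Lt) (v : I → V N) : runL pr S [l, inv l] v = v := by
  cases l with
  | F => exact stepI_step pr S v
  | Fi => exact step_stepI pr S v
  | k κ j =>
    show Ex pr (fr S (Ex pr (fr S v) _ v)) _ (Ex pr (fr S v) _ v) = v
    rw [fr_Ex, Ex_Ex pr (cmp_fr S v)]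
    have h : ∀ d, run pr (fr S v) ((if pr.J j d = true then [κ] else []) ++
        (if pr.J j d = true then [κ] else [])) v = run pr (fr S v) [] v := by
      intro d
      split_ifs
      · show run pr (fr S v) [κ, κ] v = v
        rw [run_cons, run_cons, run_nil, act_act]
      · rfl
    rw [Ex_congr pr (W' := fun _ => []) h, Ex_nil]

theorem inv_inv (l : Lt) : inv (inv l) = l := by cases l <;> rfl

/-- the shift -/
def sh {A : Type} (x : ℕ → A) : ℕ → A := fun n => x (n + 1)

theorem sh_emb (x : ℕ → A) : Emb (fun i => i + 1) (Sx dec (sh x)) (Sx dec x) := by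
  refine ⟨fun _ => rfl, fun _ => rfl, fun _ => rfl, ?_⟩
  intro i
  by_cases h : xa dec x (i + 1) = true ∧ xa dec x (i + 1 + 1) = true ∧
      xp dec x (i + 1 + 1) = !(xp dec x (i + 1))
  · have h1 : (Sx dec x).nx (i + 1) = some (i + 1 + 1) := base_nx_pos h
    have h2 : (Sx dec (sh x)).nx i = some (i + 1) := base_nx_pos (a := xa dec (sh x)) h
    rw [h1, h2]
    rfl
  · have h1 : (Sx dec x).nx (i + 1) = none := base_nx_neg h
    have h2 : (Sx dec (sh x)).nx i = none := base_nx_neg (a := xa dec (sh x)) h
    rw [h1, h2]
    rfl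

theorem T_sh (w : List Lt) (x : ℕ → A) : T pr e dec w (sh x) = sh (T pr e dec w x) := by
  funext i
  show _ = T pr e dec w x (i + 1)
  cases h : dec (x (i + 1)) with
  | none =>
    have h' : dec (sh x i) = none := h
    rw [T_none pr h, T_none pr h']
    rfl
  | some q =>
    have h' : dec (sh x i) = some q := h
    rw [T_some pr h, T_some pr h']
    have h2 := runL_nat pr (sh_emb (dec := dec) x) w (xv dec x) i
    rw [h2]
    rfl

theorem T_local {l : Lt} {x y : ℕ → A} {i : ℕ} (h : ∀ j, i ≤ j → j ≤ i + 2 → x j = y j) :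
    T pr e dec [l] x i = T pr e dec [l] y i := by
  have hi := h i le_rfl (by omega)
  cases hd : dec (x i) with
  | none =>
    have hd' : dec (y i) = none := by rw [← hi, hd]
    rw [T_none pr hd, T_none pr hd', hi]
  | some q =>
    have hd' : dec (y i) = some q := by rw [← hi, hd]
    rw [T_some pr hd, T_some pr hd']
    have hs : Same (fr (Sx dec x) (xv dec x)) (fr (Sx dec y) (xv dec y)) (xv dec x) (xv dec y) i := by
      apply base_same
      intro j h1 h2
      have hj := h j h1 h2
      refine ⟨?_, ?_, ?_, ?_⟩
      · unfold xa; rw [hj]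
      · unfold xp; rw [hj]
      · unfold xt; rw [hj]
      · unfold xv; rw [hj]
    have h3 := hs.actL pr l
    have h4 : runL pr (Sx dec x) [l] (xv dec x) i = runL pr (Sx dec y) [l] (xv dec y) i := h3
    rw [h4]

theorem T_continuous [TopologicalSpace A] [DiscreteTopology A] (l : Lt) :
    Continuous (T pr e dec [l]) := by
  apply continuous_pi
  intro i
  apply IsLocallyConstant.continuous
  rw [IsLocallyConstant.iff_exists_open]
  intro x
  refine ⟨⋂ j ∈ Finset.Icc i (i + 2), (fun y : ℕ → A => y j) ⁻¹' {x j}, ?_, ?_, ?_⟩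
  · apply isOpen_biInter_finset
    intro j _
    exact IsOpen.preimage (continuous_apply (A := fun _ : ℕ => A) j) (isOpen_discrete ({x j} : Set A))
  · simp
  · intro y hy
    apply T_local
    intro j h1 h2
    simp only [Set.mem_iInter] at hy
    exact hy j (Finset.mem_Icc.mpr ⟨h1, h2⟩)

end Full

end Pool.Agent.J6H71.Dist
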