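import Pool.Agent.J6H71.Dist.J

/-!
Short words for all powers, and the choice of the parameters.
-/

set_option autoImplicit false

namespace Pool.Agent.J6H71.Dist

section Words

variable {N : ℕ} {pr : Par N}

theorem runL_iter {I : Type} (S : Sys I) (w : List Lt) (q : ℕ) (v : I → V N) :
    runL pr S (List.replicate q w).flatten v = (runL pr S w)^[q] v := by
  induction q generalizing v with
  | zero => rfl
  | succ q ih =>
    rw [List.replicate_succ, List.flatten_cons, runL_append, ih, Function.iterate_succ_apply]

theorem short_words (hG : Good pr) {L : ℕ} (hL : ∀ l, (PhiL l).length ≤ L) (hL2 : 2 ≤ L)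
    (K n : ℕ) (hn : n < N ^ K) : ∃ w : List Lt, w.length ≤ N * L ^ K ∧
      ∀ (I : Type) (S : Sys I) (v : I → V N), runL pr S w v = (step pr S)^[n] v := by
  induction K generalizing n with
  | zero =>
    have h0 : n = 0 := by simpa using hn
    subst h0
    exact ⟨[], by simp, fun I S v => rfl⟩
  | succ K ih =>
    have hNpos : 0 < N := by have := hG.hN; omega
    have hNK : 0 < N ^ K := Nat.pow_pos hNpos
    obtain ⟨w, hw1, hw2⟩ := ih (n % N ^ K) (Nat.mod_lt _ hNK)
    refine ⟨(List.replicate (n / N ^ K) (wk K)).flatten ++ w, ?_, ?_⟩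
    · rw [List.length_append]
      have h1 : ((List.replicate (n / N ^ K) (wk K)).flatten).length =
          (n / N ^ K) * (wk K).length := by
        rw [List.length_flatten, List.map_replicate, List.sum_replicate, smul_eq_mul]
      rw [h1]
      have h2 : n / N ^ K < N := by
        rw [Nat.div_lt_iff_lt_mul hNK]
        rw [pow_succ'] at hn
        exact hn
      have h3 := wk_length hL K
      have h4 : (n / N ^ K) * (wk K).length ≤ N * L ^ K := Nat.mul_le_mul h2.le h3
      calc (n / N ^ K) * (wk K).length + w.length ≤ N * L ^ K + N * L ^ K := Nat.add_le_add h4 hw1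
        _ = 2 * (N * L ^ K) := by ring
        _ ≤ L * (N * L ^ K) := Nat.mul_le_mul_right _ hL2
        _ = N * L ^ (K + 1) := by ring
    · intro I S v
      rw [runL_append, hw2, runL_iter]
      have h1 : runL pr S (wk K) = (step pr S)^[N ^ K] := by
        funext u; exact runL_wk hG K S u
      rw [h1, ← Function.iterate_mul, ← Function.iterate_add_apply]
      congr 1
      rw [add_comm]
      exact Nat.div_add_mod n (N ^ K)

end Words

/-- the parameters for the base `N` -/
noncomputable def prN (N : ℕ) : Par N where
  sg d := Pg[d.val]?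
  J j d := if j then decide (Pg.length ≤ d.val ∧ d.val < 2 * Pg.length)
    else decide (Pg.length ≤ d.val)

theorem good_prN {N : ℕ} (hN : 2 * Pg.length < N) : Good (prN N) := by
  refine ⟨hN, fun _ => rfl, ?_, ?_⟩
  · intro d
    simp [prN]
  · intro d
    simp [prN]

instance finite_V (N : ℕ) [NeZero N] : Finite (V N) := by
  have : Function.Injective (fun v : V N => (v.d, v.Z, v.B, v.R)) := by
    intro v v' h
    simp only [Prod.mk.injEq] at h
    obtain ⟨h1, h2, h3, h4⟩ := h
    exact V.ext h1 h2 h3 h4
  exact Finite.of_injective _ this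

section Group

open Classical

variable {A : Type} [TopologicalSpace A] [DiscreteTopology A] {N : ℕ} (pr : Par N)
  {e : A0 N → A} {dec : A → Option (A0 N)}
  (hde : ∀ q, dec (e q) = some q) (hed : ∀ a q, dec a = some q → e q = a)

theorem T_inv_left (hde : ∀ q, dec (e q) = some q) (hed : ∀ a q, dec a = some q → e q = a)
    (l : Lt) (x : ℕ → A) : T pr e dec [inv l] (T pr e dec [l] x) = x := by
  rw [← T_append pr hde]
  exact T_of_id pr hed (runL_inv pr _ l _)

/-- a letter as a homeomorphism -/
noncomputable def ho (l : Lt) : (ℕ → A) ≃ₜ (ℕ → A) where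
  toFun := T pr e dec [l]
  invFun := T pr e dec [inv l]
  left_inv := T_inv_left pr hde hed l
  right_inv := by
    intro x
    have h := T_inv_left pr hde hed (inv l) x
    rw [inv_inv] at h
    exact h
  continuous_toFun := T_continuous pr l
  continuous_invFun := T_continuous pr (inv l)

theorem ho_apply (l : Lt) (x : ℕ → A) : ho pr hde hed l x = T pr e dec [l] x := rfl

theorem prod_ho (w : List Lt) (x : ℕ → A) :
    (w.reverse.map (ho pr hde hed)).prod x = T pr e dec w x := by
  induction w generalizing x with
  | nil =>
    show x = _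
    exact (T_of_id pr hed rfl).symm
  | cons l w ih =>
    rw [List.reverse_cons, List.map_append, List.prod_append]
    show (w.reverse.map (ho pr hde hed)).prod ((List.map (ho pr hde hed) [l]).prod x) = _
    rw [ih]
    have h1 : (List.map (ho pr hde hed) [l]).prod = ho pr hde hed l := by simp
    rw [h1, ho_apply, ← T_append pr hde]
    rfl

theorem T_congr {w w' : List Lt} (x : ℕ → A)
    (h : ∀ (S : Sys ℕ) (v : ℕ → V N), runL pr S w v = runL pr S w' v) :
    T pr e dec w x = T pr e dec w' x := by
  unfold T
  rw [h]

end Group

end Pool.Agent.J6H71.Dist
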